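import Pool.Agent.T32.Defs

/-! The finite check. -/

namespace Pool.Agent.T32

/-- words of length 80, primes 5, 7, 11, 13, 17, no two consecutive minus signs -/
theorem dfs2 : dfs 1 10 70 80 0 0 false init2 = true := by decide +kernel

end Pool.Agent.T32
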