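import Mathlib

/-! Integer parts of `ξ ((q+1)/q)^n`, `q = 2, 3`: definitions (MP_353e3b_nt).
Page: team-store MP_353e3b_nt_page_helper55.md. -/

namespace Pool.Agent.T32

/-- the integer part of `ξ ((q+1)/q)^n` -/
noncomputable def A (ξ : ℝ) (q n : ℕ) : ℤ := ⌊ξ * (((q : ℝ) + 1) / q) ^ n⌋

/-- the fractional part of `ξ ((q+1)/q)^n` -/
noncomputable def F (ξ : ℝ) (q n : ℕ) : ℝ := Int.fract (ξ * (((q : ℝ) + 1) / q) ^ n)

/-- the digit `q a_(n+1) - (q+1) a_n` -/
noncomputable def S (ξ : ℝ) (q n : ℕ) : ℤ := (q : ℤ) * A ξ q (n + 1) - ((q : ℤ) + 1) * A ξ q n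

/-- The state of the search machine for one prime `p`; `t = q/(q+1)` mod `p`.
At time `i`: `q^i a_i = (q+1)^i (a_0 - e)` mod `p`, `w = q^i/(q+1)^(i+1)` mod `p`, and `V` is the bit
mask of the values of `e` seen so far. -/
structure PS where
  p : ℕ
  t : ℕ
  e : ℕ
  w : ℕ
  V : ℕ

/-- One step of the machine; `s = true` is the digit `+1`, `s = false` the digit `-1`. -/
def PS.step (x : PS) (s : Bool) : PS :=
  let e' := if s then (x.e + (x.p - x.w)) % x.p else (x.e + x.w) % x.p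
  ⟨x.p, x.t, e', (x.w * x.t) % x.p, x.V ||| (1 <<< e')⟩

/-- All residues were seen. -/
def PS.dead (x : PS) : Bool := x.V + 1 == 2 ^ x.p

/-- The search. `dfs mm lo hi n i r flag st`: `n` digits to go, `i` the index of the next digit,
`r` the number of digits `-1` just before, `flag` says that a digit `-1` with index in `[lo,hi)` was
seen. The value is `true` iff no branch with `flag` survives. -/
def dfs (mm lo hi : ℕ) : ℕ → ℕ → ℕ → Bool → List PS → Bool
  | 0, _, _, flag, _ => !flag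
  | n + 1, i, r, flag, st =>
    (let st' := st.map (fun x => x.step true)
     if st'.any PS.dead then true else dfs mm lo hi n (i + 1) 0 flag st') &&
    (if r < mm then
      (let st' := st.map (fun x => x.step false)
       if st'.any PS.dead then true
       else dfs mm lo hi n (i + 1) (r + 1) (flag || (decide (lo ≤ i) && decide (i < hi))) st')
     else true)

/-- The start for `q = 2`, primes 5, 7, 11, 13, 17. -/
def init2 : List PS :=
  [⟨5, 4, 0, 2, 1⟩, ⟨7, 3, 0, 5, 1⟩, ⟨11, 8, 0, 4, 1⟩, ⟨13, 5, 0, 9, 1⟩, ⟨17, 12, 0, 6, 1⟩]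

/-- The meaning of the state. -/
def PS.Good (x : PS) (q i : ℕ) (a0 a : ℤ) : Prop :=
  x.e < x.p ∧ x.w < x.p ∧ x.V < 2 ^ x.p ∧ Nat.Coprime x.p q ∧ Nat.Coprime x.p (q + 1) ∧
  (x.p : ℤ) ∣ ((q : ℤ) + 1) * x.t - q ∧
  (x.p : ℤ) ∣ ((q : ℤ) + 1) ^ (i + 1) * x.w - (q : ℤ) ^ i ∧
  (x.p : ℤ) ∣ (q : ℤ) ^ i * a - ((q : ℤ) + 1) ^ i * (a0 - x.e) ∧
  x.V.testBit (a0 % x.p).toNat = false

end Pool.Agent.T32
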