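import Pool.Agent.T32.Defs

/-! Digits of the integer parts of `ξ ((q+1)/q)^n`. -/

namespace Pool.Agent.T32

-- BEGIN s_id
/-- the digit in terms of the fractional parts -/
theorem S_id (ξ : ℝ) (q n : ℕ) (hq : 0 < q) :
    ((S ξ q n : ℤ) : ℝ) = ((q : ℝ) + 1) * F ξ q n - (q : ℝ) * F ξ q (n + 1) := by
  have hq0 : (0 : ℝ) < q := by exact_mod_cast hq
  have h1 := Int.floor_add_fract (ξ * (((q : ℝ) + 1) / q) ^ n)
  have h2 := Int.floor_add_fract (ξ * (((q : ℝ) + 1) / q) ^ (n + 1))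
  have h3 : (q : ℝ) * (ξ * (((q : ℝ) + 1) / q) ^ (n + 1)) =
      ((q : ℝ) + 1) * (ξ * (((q : ℝ) + 1) / q) ^ n) := by
    rw [pow_succ]
    field_simp
  unfold S A F
  push_cast
  linear_combination (-((q : ℝ) + 1)) * h1 + (q : ℝ) * h2 + h3
-- END s_id

/-- bounds for the fractional part -/
theorem F_nonneg (ξ : ℝ) (q n : ℕ) : 0 ≤ F ξ q n := Int.fract_nonneg _

theorem F_lt_one (ξ : ℝ) (q n : ℕ) : F ξ q n < 1 := Int.fract_lt_one _

-- BEGIN s_bd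
/-- the digit is an integer in `(-q, q+1)` -/
theorem S_bd (ξ : ℝ) (q n : ℕ) (hq : 0 < q) :
    -(q : ℤ) < S ξ q n ∧ S ξ q n < (q : ℤ) + 1 := by
  have h := S_id ξ q n hq
  have hqR : (0 : ℝ) < q := by exact_mod_cast hq
  have h1 := F_nonneg ξ q n
  have h2 := F_nonneg ξ q (n + 1)
  have h3 := F_lt_one ξ q n
  have h4 := F_lt_one ξ q (n + 1)
  constructor
  · have h5 : (-(q : ℝ)) < ((S ξ q n : ℤ) : ℝ) := by
      rw [h]
      nlinarith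
    exact_mod_cast h5
  · have h5 : ((S ξ q n : ℤ) : ℝ) < (q : ℝ) + 1 := by
      rw [h]
      nlinarith
    exact_mod_cast h5
-- END s_bd

-- BEGIN dig2
/-- `q = 2`: odd terms give the digits `1`, `-1` -/
theorem dig2 (ξ : ℝ) (n : ℕ) (h : ¬ (2 : ℤ) ∣ A ξ 2 n) : S ξ 2 n = 1 ∨ S ξ 2 n = -1 := by
  have e : ξ * ((((2 : ℕ) : ℝ) + 1) / (2 : ℕ)) ^ (n + 1) =
      (3 / 2) * (ξ * ((((2 : ℕ) : ℝ) + 1) / (2 : ℕ)) ^ n) := by
    rw [pow_succ]; push_cast; ring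
  have a1 := Int.floor_le (ξ * ((((2 : ℕ) : ℝ) + 1) / (2 : ℕ)) ^ n)
  have a2 := Int.lt_floor_add_one (ξ * ((((2 : ℕ) : ℝ) + 1) / (2 : ℕ)) ^ n)
  have b1 := Int.floor_le (ξ * ((((2 : ℕ) : ℝ) + 1) / (2 : ℕ)) ^ (n + 1))
  have b2 := Int.lt_floor_add_one (ξ * ((((2 : ℕ) : ℝ) + 1) / (2 : ℕ)) ^ (n + 1))
  have hS : S ξ 2 n = 2 * A ξ 2 (n + 1) - 3 * A ξ 2 n := by
    simp only [S]; push_cast; ring
  rw [e] at b1 b2
  have eA : A ξ 2 n = ⌊ξ * ((((2 : ℕ) : ℝ) + 1) / (2 : ℕ)) ^ n⌋ := rfl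
  have eB : A ξ 2 (n + 1) = ⌊(3 / 2) * (ξ * ((((2 : ℕ) : ℝ) + 1) / (2 : ℕ)) ^ n)⌋ := by
    rw [← e]; rfl
  rw [← eA] at a1 a2
  rw [← eB] at b1 b2
  have c1 : (-2 : ℝ) < ((2 * A ξ 2 (n + 1) - 3 * A ξ 2 n : ℤ) : ℝ) := by
    push_cast; linarith
  have c2 : ((2 * A ξ 2 (n + 1) - 3 * A ξ 2 n : ℤ) : ℝ) < 3 := by
    push_cast; linarith
  have d1 : (-2 : ℤ) < 2 * A ξ 2 (n + 1) - 3 * A ξ 2 n := by exact_mod_cast c1
  have d2 : 2 * A ξ 2 (n + 1) - 3 * A ξ 2 n < (3 : ℤ) := by exact_mod_cast c2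
  rw [hS]
  omega
-- END dig2

-- BEGIN dig3
/-- `q = 3`: terms prime to 6 give the digits `1`, `-1` -/
theorem dig3 (ξ : ℝ) (n : ℕ) (h2 : ¬ (2 : ℤ) ∣ A ξ 3 (n + 1)) (h3 : ¬ (3 : ℤ) ∣ A ξ 3 n) :
    S ξ 3 n = 1 ∨ S ξ 3 n = -1 := by
  have hb := S_bd ξ 3 n (by norm_num)
  have hS : S ξ 3 n = 3 * A ξ 3 (n + 1) - 4 * A ξ 3 n := by
    unfold S
    push_cast
    ring
  obtain ⟨hb1, hb2⟩ := hb
  push_cast at hb1 hb2
  omega
-- END dig3

-- BEGIN mm2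
/-- `q = 2`: never two consecutive digits `-1` -/
theorem mm2 (ξ : ℝ) (n : ℕ) (h0 : S ξ 2 n = -1) (h1 : S ξ 2 (n + 1) = -1) : False := by
  have e0 := S_id ξ 2 n (by norm_num)
  have e1 := S_id ξ 2 (n + 1) (by norm_num)
  rw [h0] at e0
  rw [h1] at e1
  push_cast at e0 e1
  have f0 := F_nonneg ξ 2 n
  have f2 := F_lt_one ξ 2 (n + 1 + 1)
  linarith
-- END mm2

-- BEGIN mm3
/-- `q = 3`: never three consecutive digits `-1` -/
theorem mm3 (ξ : ℝ) (n : ℕ) (h0 : S ξ 3 n = -1) (h1 : S ξ 3 (n + 1) = -1)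
    (h2 : S ξ 3 (n + 2) = -1) : False := by
  have e0 := S_id ξ 3 n (by norm_num)
  have e1 := S_id ξ 3 (n + 1) (by norm_num)
  have e2 := S_id ξ 3 (n + 2) (by norm_num)
  rw [h0] at e0
  rw [h1] at e1
  rw [h2] at e2
  push_cast at e0 e1 e2
  have f0 := F_nonneg ξ 3 n
  have f3 := F_lt_one ξ 3 (n + 2 + 1)
  have g : F ξ 3 (n + 1 + 1) = F ξ 3 (n + 2) := rfl
  rw [g] at e1
  linarith
-- END mm3

-- BEGIN plus_f
/-- digit `1`: the distance to the next integer is multiplied by `(q+1)/q` -/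
theorem plus_f (ξ : ℝ) (q n : ℕ) (hq : 0 < q) (h : S ξ q n = 1) :
    (q : ℝ) * (1 - F ξ q (n + 1)) = ((q : ℝ) + 1) * (1 - F ξ q n) := by
  have h1 := S_id ξ q n hq
  rw [h] at h1
  push_cast at h1
  linear_combination -h1
-- END plus_f

-- BEGIN run_d
/-- a run of `L` digits `1`: `q^L` divides `a_n + 1` -/
theorem run_d (ξ : ℝ) (q n L : ℕ) (hq : 0 < q) (h : ∀ i < L, S ξ q (n + i) = 1) :
    (q : ℤ) ^ L ∣ A ξ q n + 1 := by
  have key : ∀ L : ℕ, (∀ i < L, S ξ q (n + i) = 1) →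
      ((q : ℤ) + 1) ^ L * (A ξ q n + 1) = (q : ℤ) ^ L * (A ξ q (n + L) + 1) := by
    intro L
    induction L with
    | zero => intro _; simp
    | succ L ih =>
      intro hL
      have h1 := ih (fun i hi => hL i (Nat.lt_succ_of_lt hi))
      have h2 : (q : ℤ) * A ξ q (n + L + 1) - ((q : ℤ) + 1) * A ξ q (n + L) = 1 :=
        hL L (Nat.lt_succ_self L)
      have h3 : ((q : ℤ) + 1) * (A ξ q (n + L) + 1) = (q : ℤ) * (A ξ q (n + (L + 1)) + 1) := by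
        rw [← add_assoc]; linarith
      calc ((q : ℤ) + 1) ^ (L + 1) * (A ξ q n + 1)
          = ((q : ℤ) + 1) * (((q : ℤ) + 1) ^ L * (A ξ q n + 1)) := by ring
        _ = (q : ℤ) ^ L * (((q : ℤ) + 1) * (A ξ q (n + L) + 1)) := by rw [h1]; ring
        _ = (q : ℤ) ^ (L + 1) * (A ξ q (n + (L + 1)) + 1) := by rw [h3]; ring
  have hc : IsCoprime ((q : ℤ) ^ L) (((q : ℤ) + 1) ^ L) :=
    IsCoprime.pow ⟨-1, 1, by ring⟩
  exact hc.dvd_of_dvd_mul_left ⟨_, key L h⟩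
-- END run_d

-- BEGIN run_f
/-- a run of `L` digits `1`: the fractional part is close to `1` -/
theorem run_f (ξ : ℝ) (q n L : ℕ) (hq : 0 < q) (h : ∀ i < L, S ξ q (n + i) = 1) :
    1 - F ξ q n ≤ ((q : ℝ) / ((q : ℝ) + 1)) ^ L := by
  have hq0 : (0 : ℝ) < q := by exact_mod_cast hq
  have hr : (0 : ℝ) ≤ (q : ℝ) / ((q : ℝ) + 1) := by positivity
  induction L generalizing n with
  | zero =>
    rw [pow_zero]
    have := F_nonneg ξ q n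
    linarith
  | succ L ih =>
    have h1 := plus_f ξ q n hq (by simpa using h 0 (Nat.succ_pos L))
    have h2 := ih (n + 1) fun i hi => by
      have h3 := h (i + 1) (by omega)
      rwa [show n + (i + 1) = n + 1 + i by omega] at h3
    have h4 : 1 - F ξ q n = (q : ℝ) / ((q : ℝ) + 1) * (1 - F ξ q (n + 1)) := by
      field_simp
      linarith
    rw [h4, pow_succ']
    exact mul_le_mul_of_nonneg_left h2 hr
-- END run_f

end Pool.Agent.T32
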