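import Pool.Agent.T32.Defs

/-! Soundness of the search machine. -/

namespace Pool.Agent.T32

-- BEGIN good_step
private theorem good_step_e (x : PS) (s : ℤ) (b : Bool) (hw : x.w < x.p)
    (hb : s = if b then 1 else -1) : (x.p : ℤ) ∣ ((x.step b).e : ℤ) - (x.e - s * x.w) := by
  cases b
  · have h1 : (x.step false).e = (x.e + x.w) % x.p := rfl
    have h2 : s = -1 := by simpa using hb
    rw [h1, h2]
    push_cast
    have h3 : ((x.e : ℤ) + x.w) % x.p - (x.e - -1 * x.w) = -(((x.e : ℤ) + x.w) - ((x.e : ℤ) + x.w) % x.p) := by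
      ring
    rw [h3]
    exact (dvd_neg).2 (Int.dvd_self_sub_emod)
  · have h1 : (x.step true).e = (x.e + (x.p - x.w)) % x.p := rfl
    have h2 : s = 1 := by simpa using hb
    rw [h1, h2]
    push_cast [Nat.cast_sub hw.le]
    have h3 : ((x.e : ℤ) + (x.p - x.w)) % x.p - (x.e - 1 * x.w) =
        (x.p : ℤ) - (((x.e : ℤ) + (x.p - x.w)) - ((x.e : ℤ) + (x.p - x.w)) % x.p) := by
      ring
    rw [h3]
    exact dvd_sub (dvd_refl _) (Int.dvd_self_sub_emod)

/-- one step keeps the meaning of the state -/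
theorem good_step (x : PS) (q i : ℕ) (a0 a a' s : ℤ) (b : Bool) (hx : x.Good q i a0 a)
    (hb : s = if b then 1 else -1) (ha : (q : ℤ) * a' = ((q : ℤ) + 1) * a + s)
    (hp : ¬ (x.p : ℤ) ∣ a') : (x.step b).Good q (i + 1) a0 a' := by
  obtain ⟨he, hw, hV, hq, hq1, ht, hw1, ha1, hbit⟩ := hx
  have hp0 : 0 < x.p := by omega
  have h_e := good_step_e x s b hw hb
  have hpp : (x.step b).p = x.p := rfl
  have htt : (x.step b).t = x.t := rfl
  have hww : (x.step b).w = (x.w * x.t) % x.p := rfl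
  have hVV : (x.step b).V = x.V ||| (1 <<< (x.step b).e) := rfl
  have hel : (x.step b).e < x.p := by
    cases b
    · exact Nat.mod_lt _ hp0
    · exact Nat.mod_lt _ hp0
  have h8 : (x.p : ℤ) ∣ (q : ℤ) ^ (i + 1) * a' - ((q : ℤ) + 1) ^ (i + 1) * (a0 - ((x.step b).e : ℤ)) := by
    have e1 : (q : ℤ) ^ (i + 1) * a' - ((q : ℤ) + 1) ^ (i + 1) * (a0 - ((x.step b).e : ℤ)) =
        ((q : ℤ) + 1) * ((q : ℤ) ^ i * a - ((q : ℤ) + 1) ^ i * (a0 - x.e)) -
        s * (((q : ℤ) + 1) ^ (i + 1) * x.w - (q : ℤ) ^ i) +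
        ((q : ℤ) + 1) ^ (i + 1) * (((x.step b).e : ℤ) - (x.e - s * x.w)) := by
      have e2 : (q : ℤ) ^ (i + 1) * a' = (q : ℤ) ^ i * (((q : ℤ) + 1) * a + s) := by
        rw [← ha]
        ring
      rw [e2]
      ring
    rw [e1]
    exact dvd_add (dvd_sub (dvd_mul_of_dvd_right ha1 _) (dvd_mul_of_dvd_right hw1 _))
      (dvd_mul_of_dvd_right h_e _)
  refine ⟨?_, ?_, ?_, ?_, ?_, ?_, ?_, ?_, ?_⟩
  · rw [hpp]
    exact hel
  · rw [hpp, hww]
    exact Nat.mod_lt _ hp0
  · rw [hpp, hVV]
    refine Nat.or_lt_two_pow hV ?_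
    rw [Nat.one_shiftLeft]
    exact Nat.pow_lt_pow_right (by norm_num) hel
  · rw [hpp]
    exact hq
  · rw [hpp]
    exact hq1
  · rw [hpp, htt]
    exact ht
  · rw [hpp, hww]
    have e1 : ((q : ℤ) + 1) ^ (i + 1 + 1) * ((x.w * x.t % x.p : ℕ) : ℤ) - (q : ℤ) ^ (i + 1) =
        ((q : ℤ) + 1) * x.t * (((q : ℤ) + 1) ^ (i + 1) * x.w - (q : ℤ) ^ i) +
        (q : ℤ) ^ i * (((q : ℤ) + 1) * x.t - q) -
        ((q : ℤ) + 1) ^ (i + 1 + 1) * ((x.w : ℤ) * x.t - (x.w : ℤ) * x.t % x.p) := by
      push_cast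
      ring
    rw [e1]
    exact dvd_sub (dvd_add (dvd_mul_of_dvd_right hw1 _) (dvd_mul_of_dvd_right ht _))
      (dvd_mul_of_dvd_right (Int.dvd_self_sub_emod) _)
  · rw [hpp]
    exact h8
  · rw [hpp, hVV, Nat.testBit_or, hbit, Bool.false_or, Nat.one_shiftLeft, Nat.testBit_two_pow]
    have hne : (x.step b).e ≠ (a0 % (x.p : ℤ)).toNat := by
      intro h
      apply hp
      have hnn : 0 ≤ a0 % (x.p : ℤ) := Int.emod_nonneg _ (by exact_mod_cast hp0.ne')
      have h1 : ((x.step b).e : ℤ) = a0 % (x.p : ℤ) := by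
        rw [h, Int.toNat_of_nonneg hnn]
      rw [h1] at h8
      have h2 : (x.p : ℤ) ∣ ((q : ℤ) + 1) ^ (i + 1) * (a0 - a0 % (x.p : ℤ)) :=
        dvd_mul_of_dvd_right (Int.dvd_self_sub_emod) _
      have h3 : (x.p : ℤ) ∣ (q : ℤ) ^ (i + 1) * a' := by
        have := dvd_add h8 h2
        rwa [sub_add_cancel] at this
      have hc : IsCoprime (x.p : ℤ) ((q : ℤ) ^ (i + 1)) := by
        apply IsCoprime.pow_right
        exact Nat.isCoprime_iff_coprime.2 hq
      exact hc.dvd_of_dvd_mul_left h3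
    simp [hne]
-- END good_step

-- BEGIN good_dead
/-- a dead state has no meaning -/
theorem good_dead (x : PS) (q i : ℕ) (a0 a : ℤ) (hx : x.Good q i a0 a) : x.dead = false := by
  obtain ⟨h1, -, -, -, -, -, -, -, h9⟩ := hx
  have hp : (0 : ℤ) < x.p := by exact_mod_cast (Nat.zero_le _).trans_lt h1
  have h2 : (a0 % x.p).toNat < x.p := by
    have e1 := Int.emod_nonneg a0 hp.ne'
    have e2 := Int.emod_lt_of_pos a0 hp
    omega
  rw [PS.dead, beq_eq_false_iff_ne]
  intro h3
  have h4 : x.V = 2 ^ x.p - 1 := by omega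
  rw [h4, Nat.testBit_two_pow_sub_one, decide_eq_false_iff_not] at h9
  exact h9 h2
-- END good_dead

-- BEGIN good_init2
private theorem good_init2_bit (p : ℕ) (a0 : ℤ) (hp : 0 < p) (h : ¬ (p : ℤ) ∣ a0) :
    Nat.testBit 1 (a0 % (p : ℤ)).toNat = false := by
  have h1 : (a0 % (p : ℤ)).toNat ≠ 0 := by
    intro h0
    apply h
    have hnn : 0 ≤ a0 % (p : ℤ) := Int.emod_nonneg _ (by exact_mod_cast hp.ne')
    have h2 : a0 % (p : ℤ) = 0 := by
      have := Int.toNat_eq_zero.1 h0
      omega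
    exact Int.dvd_of_emod_eq_zero h2
  have h2 : (1 : ℕ) = 2 ^ 0 := rfl
  rw [h2, Nat.testBit_two_pow]
  simp only [decide_eq_false_iff_not]
  exact fun h3 => h1 h3.symm

/-- the start for `q = 2` -/
theorem good_init2 (a0 : ℤ) (h5 : ¬ (5 : ℤ) ∣ a0) (h7 : ¬ (7 : ℤ) ∣ a0) (h11 : ¬ (11 : ℤ) ∣ a0)
    (h13 : ¬ (13 : ℤ) ∣ a0) (h17 : ¬ (17 : ℤ) ∣ a0) :
    ∀ x ∈ init2, x.Good 2 0 a0 a0 := by
  intro x hx
  unfold init2 at hx
  simp only [List.mem_cons, List.not_mem_nil, or_false] at hx
  rcases hx with rfl | rfl | rfl | rfl | rfl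
  · exact ⟨by norm_num, by norm_num, by norm_num, by norm_num, by norm_num, by norm_num, by norm_num,
      by norm_num, good_init2_bit 5 a0 (by norm_num) h5⟩
  · exact ⟨by norm_num, by norm_num, by norm_num, by norm_num, by norm_num, by norm_num, by norm_num,
      by norm_num, good_init2_bit 7 a0 (by norm_num) h7⟩
  · exact ⟨by norm_num, by norm_num, by norm_num, by norm_num, by norm_num, by norm_num, by norm_num,
      by norm_num, good_init2_bit 11 a0 (by norm_num) h11⟩
  · exact ⟨by norm_num, by norm_num, by norm_num, by norm_num, by norm_num, by norm_num, by norm_num,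
      by norm_num, good_init2_bit 13 a0 (by norm_num) h13⟩
  · exact ⟨by norm_num, by norm_num, by norm_num, by norm_num, by norm_num, by norm_num, by norm_num,
      by norm_num, good_init2_bit 17 a0 (by norm_num) h17⟩
-- END good_init2

-- BEGIN dfs_sound
/-- Soundness of the search: `T` is the total length, `a`, `s` the sequence and its digits.
HINT: induction on `n` generalizing `i r flag st`; cases on `s i`; `good_step`, `good_dead`; the list
of primes of the states does not change. -/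
theorem dfs_sound (q mm lo hi T : ℕ) (a s : ℕ → ℤ) (P : List ℕ)
    (hs : ∀ j < T, s j = 1 ∨ s j = -1)
    (ha : ∀ j < T, (q : ℤ) * a (j + 1) = ((q : ℤ) + 1) * a j + s j)
    (hmm : ∀ j, j + mm < T → ∃ k ≤ mm, s (j + k) = 1)
    (hp : ∀ j ≤ T, ∀ p ∈ P, ¬ (p : ℤ) ∣ a j)
    (n i r : ℕ) (flag : Bool) (st : List PS) (hn : n + i = T) (hr : r ≤ i)
    (hrs : ∀ j, j < i → i ≤ j + r → s j = -1)
    (hst : ∀ x ∈ st, x.p ∈ P ∧ x.Good q i (a 0) (a i))
    (h : dfs mm lo hi n i r flag st = true) :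
    flag = false ∧ ∀ j, i ≤ j → j < T → lo ≤ j → j < hi → s j = 1 := by
  induction n generalizing i r flag st with
  | zero =>
    have hf : flag = false := by
      simp only [dfs] at h
      simpa using h
    exact ⟨hf, fun j h1 h2 => by omega⟩
  | succ n ih =>
    have hi' : i < T := by omega
    have hgood : ∀ b : Bool, s i = (if b then 1 else -1) → ∀ x ∈ st.map (fun x => x.step b),
        x.p ∈ P ∧ x.Good q (i + 1) (a 0) (a (i + 1)) := by
      intro b hb x hx
      obtain ⟨y, hy, rfl⟩ := List.mem_map.1 hx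
      obtain ⟨h1, h2⟩ := hst y hy
      exact ⟨h1, good_step y q i (a 0) (a i) (a (i + 1)) (s i) b h2 hb (ha i hi')
        (hp (i + 1) (by omega) y.p h1)⟩
    have halive : ∀ b : Bool, s i = (if b then 1 else -1) →
        (st.map (fun x => x.step b)).any PS.dead = false := by
      intro b hb
      rw [List.any_eq_false]
      intro x hx
      rw [good_dead x q (i + 1) (a 0) (a (i + 1)) (hgood b hb x hx).2]
      simp
    rw [dfs, Bool.and_eq_true] at h
    obtain ⟨hT, hF⟩ := h
    rcases hs i hi' with h1 | h1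
    · have hb : s i = (if true then 1 else -1) := by simpa using h1
      have h2 := halive true hb
      simp only [h2, Bool.false_eq_true, if_false] at hT
      obtain ⟨h3, h4⟩ := ih (i + 1) 0 flag _ (by omega) (Nat.zero_le _)
        (fun j h5 h6 => by omega) (hgood true hb) hT
      refine ⟨h3, fun j h5 h6 h7 h8 => ?_⟩
      rcases Nat.eq_or_lt_of_le h5 with h9 | h9
      · rw [← h9]
        exact h1
      · exact h4 j h9 h6 h7 h8
    · have hb : s i = (if false then 1 else -1) := by simpa using h1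
      have h2 := halive false hb
      have hrm : r < mm := by
        by_contra hcon
        obtain ⟨k, h3, h4⟩ := hmm (i - mm) (by omega)
        rcases Nat.eq_or_lt_of_le h3 with h5 | h5
        · rw [h5, show i - mm + mm = i by omega, h1] at h4
          omega
        · rw [hrs (i - mm + k) (by omega) (by omega)] at h4
          omega
      simp only [if_pos hrm, h2, Bool.false_eq_true, if_false] at hF
      obtain ⟨h3, h4⟩ := ih (i + 1) (r + 1) _ _ (by omega) (by omega)
        (fun j h5 h6 => by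
          rcases Nat.eq_or_lt_of_le (Nat.le_of_lt_succ h5) with h7 | h7
          · rw [h7]
            exact h1
          · exact hrs j h7 (by omega)) (hgood false hb) hF
      rw [Bool.or_eq_false_iff] at h3
      obtain ⟨h3, h5⟩ := h3
      refine ⟨h3, fun j h6 h7 h8 h9 => ?_⟩
      rcases Nat.eq_or_lt_of_le h6 with h10 | h10
      · exfalso
        have h11 : (decide (lo ≤ i) && decide (i < hi)) = true := by
          rw [Bool.and_eq_true, decide_eq_true_eq, decide_eq_true_eq]
          omega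
        rw [h5] at h11
        exact Bool.false_ne_true h11
      · exact h4 j h10 h7 h8 h9
-- END dfs_sound

-- BEGIN slide
/-- sliding a window: if every window of length `T` has the digit `1` at the positions in
`[lo, hi)`, then a window of length `L ≥ T` has the digit `1` at the positions in
`[lo, L - (T - hi))` -/
theorem slide (s : ℕ → ℤ) (lo hi T n L : ℕ) (h1 : lo < hi) (h2 : hi ≤ T) (hL : T ≤ L)
    (h : ∀ k, k + T ≤ L → ∀ j, lo ≤ j → j < hi → s (n + k + j) = 1) :
    ∀ j, lo ≤ j → j + (T - hi) < L → s (n + j) = 1 := by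
  intro j hj1 hj2
  rcases Nat.lt_or_ge j hi with h3 | h3
  · have h4 := h 0 (by omega) j hj1 h3
    rwa [Nat.add_zero] at h4
  · have h4 := h (j - (hi - 1)) (by omega) (hi - 1) (by omega) (by omega)
    rwa [show n + (j - (hi - 1)) + (hi - 1) = n + j by omega] at h4
-- END slide

end Pool.Agent.T32
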