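import Pool.Agent.SubT.PST
import Pool.Agent.T32.Dig

/-! Application of the parametric Subspace theorem (two variables). -/

namespace Pool.Agent.T32

open Pool.Agent.SubT

open scoped BigOperators

-- BEGIN av_int
/-- integers are integral at the places 2, 3 -/
theorem av_int (v : Pl) (hv : v ≠ 0) (z : ℤ) : av v (z : ℚ) ≤ 1 := by
  unfold av
  rw [if_neg hv]
  by_cases h1 : v = 1
  · rw [if_pos h1]
    have h2 : padicNorm 2 (z : ℚ) ≤ 1 := padicNorm.of_int z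
    exact_mod_cast h2
  · rw [if_neg h1]
    have h2 : padicNorm 3 (z : ℚ) ≤ 1 := padicNorm.of_int z
    exact_mod_cast h2
-- END av_int

-- BEGIN av_two
/-- divisibility by a power of 2 -/
theorem av_two (k : ℕ) (z : ℤ) (h : (2 : ℤ) ^ k ∣ z) : av 1 (z : ℚ) ≤ (1 / (2 : ℝ)) ^ k := by
  have : Fact (Nat.Prime 2) := ⟨by norm_num⟩
  have h1 : padicNorm 2 (z : ℚ) ≤ ((2 : ℕ) : ℚ) ^ (-(k : ℤ)) :=
    (padicNorm.dvd_iff_norm_le (p := 2)).1 (by exact_mod_cast h)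
  have h2 : av 1 (z : ℚ) = ((padicNorm 2 (z : ℚ) : ℚ) : ℝ) := by
    unfold av
    simp
  rw [h2]
  have h3 : ((padicNorm 2 (z : ℚ) : ℚ) : ℝ) ≤ ((((2 : ℕ) : ℚ) ^ (-(k : ℤ)) : ℚ) : ℝ) := by
    exact_mod_cast h1
  refine le_trans h3 (le_of_eq ?_)
  push_cast
  rw [one_div, inv_pow, zpow_neg, zpow_natCast]
-- END av_two

-- BEGIN av_three
/-- divisibility by a power of 3 -/
theorem av_three (k : ℕ) (z : ℤ) (h : (3 : ℤ) ^ k ∣ z) : av 2 (z : ℚ) ≤ (1 / (3 : ℝ)) ^ k := by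
  have : Fact (Nat.Prime 3) := ⟨by norm_num⟩
  have h1 : padicNorm 3 (z : ℚ) ≤ ((3 : ℕ) : ℚ) ^ (-(k : ℤ)) :=
    (padicNorm.dvd_iff_norm_le (p := 3)).1 (by exact_mod_cast h)
  have h2 : av 2 (z : ℚ) = ((padicNorm 3 (z : ℚ) : ℚ) : ℝ) := by
    unfold av
    simp
  rw [h2]
  have h3 : ((padicNorm 3 (z : ℚ) : ℚ) : ℝ) ≤ ((((3 : ℕ) : ℚ) ^ (-(k : ℤ)) : ℚ) : ℝ) := by
    exact_mod_cast h1
  refine le_trans h3 (le_of_eq ?_)
  push_cast
  rw [one_div, inv_pow, zpow_neg, zpow_natCast]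
-- END av_three

/-- `v1` is the place of `q+1`, `v2` the place of `q` -/
def PlOK (q : ℕ) (v1 v2 : Pl) : Prop :=
  v1 ≠ 0 ∧ v2 ≠ 0 ∧ v1 ≠ v2 ∧
  (∀ (k : ℕ) (z : ℤ), ((q : ℤ) + 1) ^ k ∣ z → av v1 (z : ℚ) ≤ (1 / ((q : ℝ) + 1)) ^ k) ∧
  (∀ (k : ℕ) (z : ℤ), (q : ℤ) ^ k ∣ z → av v2 (z : ℚ) ≤ (1 / (q : ℝ)) ^ k)

-- BEGIN plOK
/-- `q = 2`: 3-adic, 2-adic; `q = 3`: `4 = 2^2`, so 2-adic, 3-adic -/
theorem plOK2 : PlOK 2 2 1 := by
  refine ⟨by decide, by decide, by decide, fun k z h => ?_, fun k z h => ?_⟩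
  · have h1 : (3 : ℤ) ^ k ∣ z := by
      have h2 : (((2 : ℕ) : ℤ) + 1) = 3 := by norm_num
      rwa [h2] at h
    have h3 := av_three k z h1
    have h4 : (((2 : ℕ) : ℝ) + 1) = 3 := by norm_num
    rwa [h4]
  · have h1 : (2 : ℤ) ^ k ∣ z := by
      have h2 : ((2 : ℕ) : ℤ) = 2 := by norm_num
      rwa [h2] at h
    have h3 := av_two k z h1
    have h4 : ((2 : ℕ) : ℝ) = 2 := by norm_num
    rwa [h4]

theorem plOK3 : PlOK 3 1 2 := by
  refine ⟨by decide, by decide, by decide, fun k z h => ?_, fun k z h => ?_⟩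
  · have h1 : (2 : ℤ) ^ (2 * k) ∣ z := by
      have h2 : (((3 : ℕ) : ℤ) + 1) = 2 ^ 2 := by norm_num
      rwa [h2, ← pow_mul] at h
    have h3 := av_two (2 * k) z h1
    have h4 : (1 / (((3 : ℕ) : ℝ) + 1)) = (1 / (2 : ℝ)) ^ 2 := by norm_num
    rwa [h4, ← pow_mul]
  · have h1 : (3 : ℤ) ^ k ∣ z := by
      have h2 : ((3 : ℕ) : ℤ) = 3 := by norm_num
      rwa [h2] at h
    have h3 := av_three k z h1
    have h4 : ((3 : ℕ) : ℝ) = 3 := by norm_num
    rwa [h4]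
-- END plOK

/-- the forms: `x - y, x` at infinity, `x, y` elsewhere -/
def MM : Pl → Matrix (Fin 2) (Fin 2) ℚ := fun v => if v = 0 then !![1, -1; 1, 0] else 1

-- BEGIN mm_lin
theorem det_MM (v : Pl) : (MM v).det ≠ 0 := by
  unfold MM
  split_ifs
  · rw [Matrix.det_fin_two]
    norm_num
  · simp

theorem lin_MM0 (x : Fin 2 → ℚ) : lin MM 0 0 x = x 0 - x 1 := by
  unfold lin MM
  simp [Matrix.mulVec, dotProduct, Fin.sum_univ_two]
  ring

theorem lin_MM1 (x : Fin 2 → ℚ) : lin MM 0 1 x = x 0 := by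
  unfold lin MM
  simp [Matrix.mulVec, dotProduct, Fin.sum_univ_two]

theorem lin_MMv (v : Pl) (hv : v ≠ 0) (i : Fin 2) (x : Fin 2 → ℚ) : lin MM v i x = x i := by
  unfold lin MM
  simp [hv]
-- END mm_lin

/-- the exponents -/
noncomputable def cc (q : ℕ) (v1 : Pl) (ε : ℝ) : Pl → Fin 2 → ℝ := fun v i =>
  if v = 0 then
    (if i = 0 then Real.log q - ε * Real.log (((q : ℝ) + 1) / q) + ε * Real.log ((q : ℝ) + 1) / 4
     else Real.log ((q : ℝ) + 1) + ε * Real.log ((q : ℝ) + 1) / 4)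
  else if v = v1 then (if i = 0 then -Real.log ((q : ℝ) + 1) else 0)
  else (if i = 0 then 0 else -((1 + ε) * Real.log q))

-- BEGIN cc_sum
/-- the sum of the exponents is `- ε log (q+1) / 2` -/
theorem cc_sum (q : ℕ) (v1 : Pl) (hv : v1 ≠ 0) (hq : 2 ≤ q) (ε : ℝ) (hε : 0 < ε) :
    ∑ v, ∑ i, cc q v1 ε v i < 0 := by
  have hq0 : (0 : ℝ) < q := by exact_mod_cast (by omega : 0 < q)
  have hlr0 : 0 < Real.log ((q : ℝ) + 1) := Real.log_pos (by linarith)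
  have hdiv : Real.log (((q : ℝ) + 1) / q) = Real.log ((q : ℝ) + 1) - Real.log q := by
    rw [Real.log_div (by linarith) (by linarith)]
  have h : ∑ v, ∑ i, cc q v1 ε v i = -(ε * Real.log ((q : ℝ) + 1) / 2) := by
    have h12 : v1 = 1 ∨ v1 = 2 := by
      revert v1
      decide
    rw [Fin.sum_univ_three, Fin.sum_univ_two, Fin.sum_univ_two, Fin.sum_univ_two]
    rcases h12 with rfl | rfl
    · unfold cc
      simp [hdiv]
      ring
    · unfold cc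
      simp [hdiv]
      ring
  rw [h]
  have : 0 < ε * Real.log ((q : ℝ) + 1) / 2 := by positivity
  linarith
-- END cc_sum

-- BEGIN mem_sol
private theorem mem_sol_pl : ∀ v v1 v2 : Fin 3, v1 ≠ 0 → v2 ≠ 0 → v1 ≠ v2 → v ≠ 0 → v ≠ v1 →
    v = v2 := by decide

/-- the points are solutions. HINT: `log u, log b ≤ n ε log (q+1) / 4` for large `n`; every bound is
`exp (n c)`. -/
theorem mem_sol (q : ℕ) (v1 v2 : Pl) (hv : PlOK q v1 v2) (hq : 2 ≤ q) (u b : ℕ) (hu : 0 < u)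
    (hb : 0 < b) (ε : ℝ) (hε : 0 < ε) :
    ∃ N : ℕ, ∀ n ≥ N, ∀ L : ℕ, ε * n ≤ L → ∀ c : ℤ, (q : ℤ) ^ L ∣ c →
      |(b : ℝ) * (q : ℝ) ^ n * c - u * ((q : ℝ) + 1) ^ n| ≤
        b * (q : ℝ) ^ n * ((q : ℝ) / ((q : ℝ) + 1)) ^ L →
      (![(u : ℚ) * ((q : ℚ) + 1) ^ n, (b : ℚ) * (q : ℚ) ^ n * c] : Fin 2 → ℚ) ∈
        Sol MM (cc q v1 ε) (Real.exp n) := by
  have hq0 : (0 : ℝ) < q := by exact_mod_cast (by omega : 0 < q)
  have hq1 : (1 : ℝ) < q := by exact_mod_cast (by omega : 1 < q)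
  have hu0 : (0 : ℝ) < u := by exact_mod_cast hu
  have hb0 : (0 : ℝ) < b := by exact_mod_cast hb
  set lq : ℝ := Real.log q with hlq
  set lr : ℝ := Real.log ((q : ℝ) + 1) with hlr
  have hlq0 : 0 < lq := Real.log_pos hq1
  have hlr0 : 0 < lr := Real.log_pos (by linarith)
  have hlt : lq < lr := Real.log_lt_log hq0 (by linarith)
  set η : ℝ := ε * lr / 4 with hη
  have hη0 : 0 < η := by positivity
  have hdiv : Real.log (((q : ℝ) + 1) / q) = lr - lq := by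
    rw [Real.log_div (by linarith) (by linarith)]
  have eq1 : Real.exp lq = q := Real.exp_log hq0
  have er1 : Real.exp lr = (q : ℝ) + 1 := Real.exp_log (by linarith)
  refine ⟨⌈max (Real.log u) (Real.log b) / η⌉₊, fun n hn L hL c hc habs => ?_⟩
  have hn1 : max (Real.log u) (Real.log b) ≤ n * η := by
    have h1 : max (Real.log u) (Real.log b) / η ≤ n := le_trans (Nat.le_ceil _) (by exact_mod_cast hn)
    rwa [div_le_iff₀ hη0] at h1
  have hun : (u : ℝ) ≤ Real.exp (n * η) := by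
    rw [← Real.log_le_iff_le_exp hu0]
    exact le_trans (le_max_left _ _) hn1
  have hbn : (b : ℝ) ≤ Real.exp (n * η) := by
    rw [← Real.log_le_iff_le_exp hb0]
    exact le_trans (le_max_right _ _) hn1
  have hn0 : (0 : ℝ) ≤ n := Nat.cast_nonneg _
  have epow : ∀ (x : ℝ) (k : ℕ), Real.exp x ^ k = Real.exp (k * x) := by
    intro x k
    rw [← Real.exp_nat_mul]
  have key : ∀ t : ℝ, Real.exp n ^ t = Real.exp (n * t) := fun t => (Real.exp_mul _ _).symm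
  have hz0 : ((u : ℚ) * ((q : ℚ) + 1) ^ n) = (((u : ℤ) * ((q : ℤ) + 1) ^ n : ℤ) : ℚ) := by
    push_cast
    ring
  have hz1 : ((b : ℚ) * (q : ℚ) ^ n * c) = (((b : ℤ) * (q : ℤ) ^ n * c : ℤ) : ℚ) := by
    push_cast
    ring
  obtain ⟨hv1, hv2, hv12, hA, hB⟩ := hv
  have hcase : ∀ v : Pl, v ≠ 0 → v ≠ v1 → v = v2 := fun v h1 h2 =>
    mem_sol_pl v v1 v2 hv1 hv2 hv12 h1 h2
  refine ⟨?_, ?_⟩
  · intro i
    fin_cases i
    · exact ⟨0, (u : ℤ) * ((q : ℤ) + 1) ^ n, by simp⟩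
    · exact ⟨0, (b : ℤ) * (q : ℤ) ^ n * c, by simp⟩
  · intro v i
    rw [key]
    by_cases h0 : v = 0
    · subst h0
      fin_cases i
      · change av 0 (lin MM 0 0 _) ≤ Real.exp (n * cc q v1 ε 0 0)
        rw [lin_MM0]
        have e1 : cc q v1 ε 0 0 = lq - ε * (lr - lq) + η := by
          unfold cc
          simp [hdiv, hη, ← hlq, ← hlr]
        have e2 : av 0 ((![(u : ℚ) * ((q : ℚ) + 1) ^ n, (b : ℚ) * (q : ℚ) ^ n * c] : Fin 2 → ℚ) 0 -
            (![(u : ℚ) * ((q : ℚ) + 1) ^ n, (b : ℚ) * (q : ℚ) ^ n * c] : Fin 2 → ℚ) 1) =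
            |(b : ℝ) * (q : ℝ) ^ n * c - u * ((q : ℝ) + 1) ^ n| := by
          rw [abs_sub_comm]
          unfold av
          simp
        rw [e1, e2]
        refine le_trans habs ?_
        have h1 : ((q : ℝ) / ((q : ℝ) + 1)) ^ L = Real.exp (L * (lq - lr)) := by
          rw [← epow, Real.exp_sub, eq1, er1]
        have h2 : (q : ℝ) ^ n = Real.exp (n * lq) := by rw [← epow, eq1]
        rw [h1, h2]
        calc (b : ℝ) * Real.exp (n * lq) * Real.exp (L * (lq - lr)) ≤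
            Real.exp (n * η) * Real.exp (n * lq) * Real.exp (L * (lq - lr)) := by gcongr
          _ = Real.exp (n * η + n * lq + L * (lq - lr)) := by rw [Real.exp_add, Real.exp_add]
          _ ≤ Real.exp (n * (lq - ε * (lr - lq) + η)) := by
              apply Real.exp_le_exp.2
              nlinarith [mul_le_mul_of_nonneg_right hL (sub_nonneg.2 hlt.le)]
      · change av 0 (lin MM 0 1 _) ≤ Real.exp (n * cc q v1 ε 0 1)
        rw [lin_MM1]
        have e1 : cc q v1 ε 0 1 = lr + η := by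
          unfold cc
          simp [hη, ← hlr]
        have e2 : av 0 ((![(u : ℚ) * ((q : ℚ) + 1) ^ n, (b : ℚ) * (q : ℚ) ^ n * c] : Fin 2 → ℚ) 0) =
            (u : ℝ) * ((q : ℝ) + 1) ^ n := by
          unfold av
          simp only [Matrix.cons_val_zero, if_true]
          push_cast
          exact abs_of_nonneg (by positivity)
        rw [e1, e2]
        have h2 : ((q : ℝ) + 1) ^ n = Real.exp (n * lr) := by rw [← epow, er1]
        rw [h2]
        calc (u : ℝ) * Real.exp (n * lr) ≤ Real.exp (n * η) * Real.exp (n * lr) := by gcongr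
          _ = Real.exp (n * (lr + η)) := by
              rw [← Real.exp_add]
              ring_nf
    · rw [lin_MMv v h0]
      by_cases h1 : v = v1
      · subst h1
        fin_cases i
        · change av v ((u : ℚ) * ((q : ℚ) + 1) ^ n) ≤ Real.exp (n * cc q v ε v 0)
          have e1 : cc q v ε v 0 = -lr := by
            unfold cc
            simp [h0, ← hlr]
          rw [e1, hz0]
          refine le_trans (hA n _ (Dvd.intro_left _ rfl)) ?_
          rw [mul_neg, Real.exp_neg, one_div, inv_pow, ← epow, er1]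
        · change av v ((b : ℚ) * (q : ℚ) ^ n * c) ≤ Real.exp (n * cc q v ε v 1)
          have e1 : cc q v ε v 1 = 0 := by
            unfold cc
            simp [h0]
          rw [e1, hz1, mul_zero, Real.exp_zero]
          exact av_int v h0 _
      · have h2 := hcase v h0 h1
        subst h2
        fin_cases i
        · change av v ((u : ℚ) * ((q : ℚ) + 1) ^ n) ≤ Real.exp (n * cc q v1 ε v 0)
          have e1 : cc q v1 ε v 0 = 0 := by
            unfold cc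
            simp [h0, h1]
          rw [e1, hz0, mul_zero, Real.exp_zero]
          exact av_int v h0 _
        · change av v ((b : ℚ) * (q : ℚ) ^ n * c) ≤ Real.exp (n * cc q v1 ε v 1)
          have e1 : cc q v1 ε v 1 = -((1 + ε) * lq) := by
            unfold cc
            simp [h0, h1, ← hlq]
          rw [e1, hz1]
          have hd : (q : ℤ) ^ (n + L) ∣ (b : ℤ) * (q : ℤ) ^ n * c := by
            rw [pow_add, mul_assoc]
            exact Dvd.dvd.mul_left (mul_dvd_mul_left _ hc) _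
          refine le_trans (hB (n + L) _ hd) ?_
          rw [one_div, inv_pow, ← eq1, epow, ← Real.exp_neg]
          apply Real.exp_le_exp.2
          push_cast
          nlinarith [mul_le_mul_of_nonneg_right hL hlq0.le]
-- END mem_sol

-- BEGIN line
/-- a proper subspace of `ℚ^2` is contained in a line -/
theorem line (T : Submodule ℚ (Fin 2 → ℚ)) (hT : T ≠ ⊤) (x y : Fin 2 → ℚ) (hx : x ∈ T)
    (hy : y ∈ T) : x 0 * y 1 = x 1 * y 0 := by
  by_contra hne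
  apply hT
  rw [eq_top_iff]
  intro z _
  have hD : x 0 * y 1 - x 1 * y 0 ≠ 0 := sub_ne_zero.2 hne
  have hz : z = ((z 0 * y 1 - z 1 * y 0) / (x 0 * y 1 - x 1 * y 0)) • x +
      ((x 0 * z 1 - x 1 * z 0) / (x 0 * y 1 - x 1 * y 0)) • y := by
    funext i
    fin_cases i
    · simp only [Fin.zero_eta, Pi.add_apply, Pi.smul_apply, smul_eq_mul]
      rw [div_mul_eq_mul_div, div_mul_eq_mul_div, ← add_div, eq_div_iff hD]
      ring
    · simp only [Fin.mk_one, Pi.add_apply, Pi.smul_apply, smul_eq_mul]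
      rw [div_mul_eq_mul_div, div_mul_eq_mul_div, ← add_div, eq_div_iff hD]
      ring
  rw [hz]
  exact T.add_mem (T.smul_mem _ hx) (T.smul_mem _ hy)
-- END line

-- BEGIN one_line
/-- only finitely many `n` on one line. HINT: the ratio of the coordinates is a constant `> 1` by
`line`, and tends to `1`. -/
theorem one_line (q : ℕ) (hq : 2 ≤ q) (u b : ℕ) (hu : 0 < u) (hb : 0 < b)
    (T : Submodule ℚ (Fin 2 → ℚ)) (hT : T ≠ ⊤) :
    ∃ N : ℕ, ∀ n ≥ N, ∀ c : ℤ, 0 < (b : ℝ) * (q : ℝ) ^ n * c - u * ((q : ℝ) + 1) ^ n →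
      (b : ℝ) * (q : ℝ) ^ n * c - u * ((q : ℝ) + 1) ^ n ≤ b * (q : ℝ) ^ n →
      (![(u : ℚ) * ((q : ℚ) + 1) ^ n, (b : ℚ) * (q : ℚ) ^ n * c] : Fin 2 → ℚ) ∈ T → False := by
  have hu0 : (0 : ℝ) < u := by exact_mod_cast hu
  have hb0 : (0 : ℝ) < b := by exact_mod_cast hb
  have hq0 : (0 : ℝ) < q := by exact_mod_cast (by omega : 0 < q)
  by_cases hex : ∃ (n : ℕ) (c : ℤ), 0 < (b : ℝ) * (q : ℝ) ^ n * c - u * ((q : ℝ) + 1) ^ n ∧
      (![(u : ℚ) * ((q : ℚ) + 1) ^ n, (b : ℚ) * (q : ℚ) ^ n * c] : Fin 2 → ℚ) ∈ T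
  · obtain ⟨n1, c1, h1, h2⟩ := hex
    set x1 : ℝ := u * ((q : ℝ) + 1) ^ n1 with hx1
    set y1 : ℝ := (b : ℝ) * (q : ℝ) ^ n1 * c1 with hy1
    have hx1p : 0 < x1 := by positivity
    have hlim : Filter.Tendsto (fun n : ℕ => (b : ℝ) * ((q : ℝ) / ((q : ℝ) + 1)) ^ n) Filter.atTop
        (nhds (b * 0)) :=
      (tendsto_pow_atTop_nhds_zero_of_lt_one (by positivity)
        ((div_lt_one (by positivity)).2 (by linarith))).const_mul _
    rw [mul_zero] at hlim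
    have hpos : 0 < (y1 - x1) / x1 * u := by positivity
    obtain ⟨N, hN⟩ := Filter.eventually_atTop.1 (hlim.eventually (gt_mem_nhds hpos))
    refine ⟨N, fun n hn c h3 h4 h5 => ?_⟩
    have h6 := hN n hn
    have h7 := line T hT _ _ h2 h5
    simp only [Matrix.cons_val_zero, Matrix.cons_val_one] at h7
    have h8 : x1 * ((b : ℝ) * (q : ℝ) ^ n * c) = y1 * (u * ((q : ℝ) + 1) ^ n) := by
      rw [hx1, hy1]
      exact_mod_cast h7
    have h9 : (b : ℝ) * (q : ℝ) ^ n * c - u * ((q : ℝ) + 1) ^ n =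
        (y1 - x1) / x1 * u * ((q : ℝ) + 1) ^ n := by
      field_simp
      linarith
    have h10 : (b : ℝ) * ((q : ℝ) / ((q : ℝ) + 1)) ^ n * ((q : ℝ) + 1) ^ n = b * (q : ℝ) ^ n := by
      rw [div_pow]
      field_simp
    have h11 : 0 < ((q : ℝ) + 1) ^ n := by positivity
    have h12 := mul_lt_mul_of_pos_right h6 h11
    rw [h10] at h12
    linarith
  · refine ⟨0, fun n _ c h3 _ h5 => hex ⟨n, c, h3, h5⟩⟩
-- END one_line

-- BEGIN sub_fin
/-- the Subspace theorem: finitely many bad `n` -/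
theorem sub_fin (q : ℕ) (v1 v2 : Pl) (hv : PlOK q v1 v2) (hq : 2 ≤ q) (u b : ℕ) (hu : 0 < u)
    (hb : 0 < b) (ε : ℝ) (hε : 0 < ε) :
    ∃ N : ℕ, ∀ n ≥ N, ∀ L : ℕ, ε * n ≤ L → ∀ c : ℤ, (q : ℤ) ^ L ∣ c →
      0 < (b : ℝ) * (q : ℝ) ^ n * c - u * ((q : ℝ) + 1) ^ n →
      (b : ℝ) * (q : ℝ) ^ n * c - u * ((q : ℝ) + 1) ^ n ≤
        b * (q : ℝ) ^ n * ((q : ℝ) / ((q : ℝ) + 1)) ^ L → False := by
  classical
  obtain ⟨Q0, hQ0, TT, hTT, hP⟩ := pst MM det_MM (cc q v1 ε) (cc_sum q v1 hv.1 hq ε hε)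
  obtain ⟨N1, hN1⟩ := mem_sol q v1 v2 hv hq u b hu hb ε hε
  have hN : ∀ T : Submodule ℚ (Fin 2 → ℚ), ∃ N : ℕ, T ∈ TT → ∀ n ≥ N, ∀ c : ℤ,
      0 < (b : ℝ) * (q : ℝ) ^ n * c - u * ((q : ℝ) + 1) ^ n →
      (b : ℝ) * (q : ℝ) ^ n * c - u * ((q : ℝ) + 1) ^ n ≤ b * (q : ℝ) ^ n →
      (![(u : ℚ) * ((q : ℚ) + 1) ^ n, (b : ℚ) * (q : ℚ) ^ n * c] : Fin 2 → ℚ) ∈ T → False := by
    intro T
    by_cases hT : T ∈ TT
    · obtain ⟨N, hN⟩ := one_line q hq u b hu hb T (hTT T hT)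
      exact ⟨N, fun _ => hN⟩
    · exact ⟨0, fun h => absurd h hT⟩
  choose NT hNT using hN
  refine ⟨max (max N1 ⌈Real.log Q0⌉₊) (TT.sup NT), fun n hn L hL c hc hpos hle => ?_⟩
  have hn1 : N1 ≤ n := le_trans (le_trans (le_max_left _ _) (le_max_left _ _)) hn
  have hn2 : ⌈Real.log Q0⌉₊ ≤ n := le_trans (le_trans (le_max_right _ _) (le_max_left _ _)) hn
  have hn3 : TT.sup NT ≤ n := le_trans (le_max_right _ _) hn
  have hexp : Real.exp n ≥ Q0 := by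
    have h1 : Real.log Q0 ≤ n := le_trans (Nat.le_ceil _) (by exact_mod_cast hn2)
    have h2 := Real.exp_le_exp.2 h1
    rwa [Real.exp_log (by linarith)] at h2
  obtain ⟨T, hT, hsub⟩ := hP (Real.exp n) hexp
  have hq0 : (0 : ℝ) < q := by exact_mod_cast (by omega : 0 < q)
  have hmem := hN1 n hn1 L hL c hc (by rw [abs_of_pos hpos]; exact hle)
  have hle2 : (b : ℝ) * (q : ℝ) ^ n * c - u * ((q : ℝ) + 1) ^ n ≤ b * (q : ℝ) ^ n := by
    refine le_trans hle ?_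
    have h1 : ((q : ℝ) / ((q : ℝ) + 1)) ^ L ≤ 1 := by
      apply pow_le_one₀ (by positivity)
      rw [div_le_one (by positivity)]
      linarith
    have h2 : (0 : ℝ) ≤ (b : ℝ) * (q : ℝ) ^ n := by positivity
    nlinarith
  exact hNT T hT n (le_trans (Finset.le_sup hT) hn3) c hpos hle2 (hsub hmem)
-- END sub_fin

-- BEGIN fin_run
/-- no long run of digits `1`. HINT: `run_d`, `run_f`, `sub_fin` with `c = a_n + 1`,
`u = ξ.num.toNat`, `b = ξ.den`. -/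
theorem fin_run (q : ℕ) (v1 v2 : Pl) (hv : PlOK q v1 v2) (hq : 2 ≤ q) (ξ : ℚ) (hξ : 0 < ξ)
    (ε : ℝ) (hε : 0 < ε) :
    ∃ N : ℕ, ∀ n ≥ N, ∀ L : ℕ, ε * n ≤ L → ¬ ∀ i < L, S (ξ : ℝ) q (n + i) = 1 := by
  have hnum : 0 < ξ.num := Rat.num_pos.2 hξ
  have hu : 0 < ξ.num.toNat := by omega
  have hb : 0 < ξ.den := ξ.den_pos
  obtain ⟨N, hN⟩ := sub_fin q v1 v2 hv hq ξ.num.toNat ξ.den hu hb ε hε
  refine ⟨N, fun n hn L hL h => ?_⟩
  have hq0 : (0 : ℝ) < q := by exact_mod_cast (by omega : 0 < q)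
  have hb0 : (0 : ℝ) < (ξ.den : ℝ) := by exact_mod_cast hb
  have hd := run_d (ξ : ℝ) q n L (by omega) h
  have hf := run_f (ξ : ℝ) q n L (by omega) h
  have hF1 := F_lt_one (ξ : ℝ) q n
  have hu1 : ((ξ.num.toNat : ℕ) : ℝ) = (ξ.num : ℝ) := by
    have h1 : ((ξ.num.toNat : ℕ) : ℤ) = ξ.num := Int.toNat_of_nonneg hnum.le
    exact_mod_cast h1
  have hxi : (ξ.den : ℝ) * (ξ : ℝ) = (ξ.num : ℝ) := by
    have h1 : (ξ : ℚ) * ξ.den = ξ.num := Rat.mul_den_eq_num ξ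
    have h2 : ((ξ * ξ.den : ℚ) : ℝ) = ((ξ.num : ℚ) : ℝ) := by rw [h1]
    push_cast at h2
    linarith
  have hfl : (A (ξ : ℝ) q n : ℝ) = (ξ : ℝ) * (((q : ℝ) + 1) / q) ^ n - F (ξ : ℝ) q n := by
    unfold A F
    have := Int.floor_add_fract ((ξ : ℝ) * (((q : ℝ) + 1) / q) ^ n)
    linarith
  have hX : (ξ.den : ℝ) * (q : ℝ) ^ n * ((A (ξ : ℝ) q n + 1 : ℤ) : ℝ) -
      (ξ.num.toNat : ℕ) * ((q : ℝ) + 1) ^ n =
      (ξ.den : ℝ) * (q : ℝ) ^ n * (1 - F (ξ : ℝ) q n) := by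
    rw [hu1, ← hxi]
    push_cast
    rw [hfl, div_pow]
    field_simp
    ring
  refine hN n hn L hL (A (ξ : ℝ) q n + 1) hd ?_ ?_
  · rw [hX]
    have : 0 < 1 - F (ξ : ℝ) q n := by linarith
    positivity
  · rw [hX]
    gcongr
-- END fin_run

end Pool.Agent.T32
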