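import Pool.Agent.T32.Win
import Pool.Agent.T32.Sub

/-! Windows and counting. -/

namespace Pool.Agent.T32

open Pool.Agent.SubT

-- BEGIN big_a
/-- the terms tend to infinity -/
theorem big_a (ξ : ℝ) (hξ : 0 < ξ) (q : ℕ) (hq : 0 < q) (K : ℤ) :
    ∃ N : ℕ, ∀ m ≥ N, K < A ξ q m := by
  have hq0 : (0 : ℝ) < q := by exact_mod_cast hq
  have h1 : 1 < ((q : ℝ) + 1) / q := by
    rw [one_lt_div hq0]
    linarith
  have h2 := (tendsto_pow_atTop_atTop_of_one_lt h1).const_mul_atTop hξ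
  obtain ⟨N, hN⟩ := Filter.eventually_atTop.1 (h2.eventually_ge_atTop ((K : ℝ) + 1))
  refine ⟨N, fun m hm => ?_⟩
  have h3 : K + 1 ≤ A ξ q m := by
    rw [A, Int.le_floor]
    push_cast
    exact hN m hm
  omega
-- END big_a

-- BEGIN gap2
/-- windows for `3/2`. HINT: `L = ⌊ε n⌋₊`, `win2`, `fin_run` with `ε/2` at `n + 10`, length `L - 20`,
`plOK2`; `big_a` with `K = 17`. -/
theorem gap2 (ξ : ℚ) (hξ : 0 < ξ) (ε : ℝ) (hε : 0 < ε) :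
    ∃ N : ℕ, ∀ n ≥ N, ∃ m : ℕ, n ≤ m ∧ (m : ℝ) ≤ (1 + ε) * n ∧ 17 < A (ξ : ℝ) 2 m ∧
      ∃ p : ℕ, p.Prime ∧ p ≤ 17 ∧ (p : ℤ) ∣ A (ξ : ℝ) 2 m := by
  obtain ⟨N1, hN1⟩ := big_a (ξ : ℝ) (by exact_mod_cast hξ) 2 (by norm_num) 17
  obtain ⟨N2, hN2⟩ := fin_run 2 2 1 plOK2 le_rfl ξ hξ (ε / 2) (by positivity)
  obtain ⟨N3, hN3⟩ := exists_nat_gt ((81 + 10 * ε) / (ε / 2))
  refine ⟨max (max N1 N2) N3, fun n hn => ?_⟩
  have hn1 : N1 ≤ n := (le_max_left _ _).trans ((le_max_left _ _).trans hn)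
  have hn2 : N2 ≤ n := (le_max_right _ _).trans ((le_max_left _ _).trans hn)
  have hn3 : N3 ≤ n := (le_max_right _ _).trans hn
  have hn4 : 81 + 10 * ε < ε / 2 * n := by
    have h1 : ((81 + 10 * ε) / (ε / 2)) < n := hN3.trans_le (by exact_mod_cast hn3)
    rw [div_lt_iff₀ (by positivity)] at h1
    linarith
  have hn0 : (0 : ℝ) ≤ n := Nat.cast_nonneg n
  have hL1 : ((⌊ε * n⌋₊ : ℕ) : ℝ) ≤ ε * n := Nat.floor_le (by positivity)
  have hL2 : ε * n < (⌊ε * n⌋₊ : ℕ) + 1 := Nat.lt_floor_add_one _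
  set L := ⌊ε * n⌋₊ with hL
  have hL3 : 80 ≤ L := by
    have h1 : (80 : ℝ) < L := by nlinarith
    exact_mod_cast h1.le
  by_contra hcon
  push Not at hcon
  have hw := win2 (ξ : ℝ) n L hL3 fun m h1 h2 p hp hp17 hdvd => by
    refine hcon m h1 ?_ (hN1 m (hn1.trans h1)) p hp hp17 hdvd
    have h3 : (m : ℝ) ≤ n + L := by exact_mod_cast h2
    linarith
  refine hN2 (n + 10) (by omega) (L - 20) ?_ fun i hi => ?_
  · have h1 : ((L - 20 : ℕ) : ℝ) = L - 20 := by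
      rw [Nat.cast_sub (by omega)]
      norm_num
    rw [h1]
    push_cast
    linarith
  · have h1 := hw (10 + i) (by omega) (by omega)
    rwa [← Nat.add_assoc] at h1
-- END gap2

-- BEGIN gap3
/-- windows for `4/3`. HINT: `win3`, `fin_run` with `ε/2` at `n + 7`, length `L - 7`, `plOK3`,
`big_a` with `K = 5`. -/
theorem gap3 (ξ : ℚ) (hξ : 0 < ξ) (ε : ℝ) (hε : 0 < ε) :
    ∃ N : ℕ, ∀ n ≥ N, ∃ m : ℕ, n ≤ m ∧ (m : ℝ) ≤ (1 + ε) * n ∧ 5 < A (ξ : ℝ) 3 m ∧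
      ∃ p : ℕ, p.Prime ∧ p ≤ 5 ∧ (p : ℤ) ∣ A (ξ : ℝ) 3 m := by
  obtain ⟨N1, hN1⟩ := big_a (ξ : ℝ) (by exact_mod_cast hξ) 3 (by norm_num) 5
  obtain ⟨N2, hN2⟩ := fin_run 3 1 2 plOK3 (by norm_num) ξ hξ (ε / 2) (by positivity)
  obtain ⟨N3, hN3⟩ := exists_nat_gt ((20 + 10 * ε) / (ε / 2))
  refine ⟨max (max N1 N2) N3, fun n hn => ?_⟩
  have hn1 : N1 ≤ n := (le_max_left _ _).trans ((le_max_left _ _).trans hn)
  have hn2 : N2 ≤ n := (le_max_right _ _).trans ((le_max_left _ _).trans hn)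
  have hn3 : N3 ≤ n := (le_max_right _ _).trans hn
  have hn4 : 20 + 10 * ε < ε / 2 * n := by
    have h1 : ((20 + 10 * ε) / (ε / 2)) < n := hN3.trans_le (by exact_mod_cast hn3)
    rw [div_lt_iff₀ (by positivity)] at h1
    linarith
  have hn0 : (0 : ℝ) ≤ n := Nat.cast_nonneg n
  have hL1 : ((⌊ε * n⌋₊ : ℕ) : ℝ) ≤ ε * n := Nat.floor_le (by positivity)
  have hL2 : ε * n < (⌊ε * n⌋₊ : ℕ) + 1 := Nat.lt_floor_add_one _
  set L := ⌊ε * n⌋₊ with hL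
  have hL3 : 11 ≤ L := by
    have h1 : (11 : ℝ) < L := by nlinarith
    exact_mod_cast h1.le
  by_contra hcon
  push Not at hcon
  have hw := win3 (ξ : ℝ) n L hL3 fun m h1 h2 p hp hp5 hdvd => by
    refine hcon m h1 ?_ (hN1 m (hn1.trans h1)) p hp hp5 hdvd
    have h3 : (m : ℝ) ≤ n + L := by exact_mod_cast h2
    linarith
  refine hN2 (n + 7) (by omega) (L - 7) ?_ fun i hi => ?_
  · have h1 : ((L - 7 : ℕ) : ℝ) = L - 7 := by
      rw [Nat.cast_sub (by omega)]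
      norm_num
    rw [h1]
    push_cast
    linarith
  · have h1 := hw (7 + i) (by omega) (by omega)
    rwa [← Nat.add_assoc] at h1
-- END gap3

-- BEGIN cnt_step
private theorem cnt_step_fin (P : ℕ → Prop) (y : ℝ) : {m : ℕ | (m : ℝ) ≤ y ∧ P m}.Finite :=
  (Set.finite_Iic ⌊y⌋₊).subset fun _ hm => Nat.le_floor hm.1

/-- one more element in `(x, (1+3δ) x]`. HINT: `n = ⌊x⌋₊ + 1 ≤ (1+δ) x`. -/
theorem cnt_step (P : ℕ → Prop) (δ : ℝ) (hδ : 0 < δ) (hδ1 : δ ≤ 1) (N : ℕ)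
    (h : ∀ n ≥ N, ∃ m : ℕ, n ≤ m ∧ (m : ℝ) ≤ (1 + δ) * n ∧ P m) (x : ℝ) (hx : (N : ℝ) ≤ x)
    (hx1 : 1 ≤ δ * x) :
    {m : ℕ | (m : ℝ) ≤ x ∧ P m}.ncard + 1 ≤ {m : ℕ | (m : ℝ) ≤ (1 + 3 * δ) * x ∧ P m}.ncard := by
  have hx0 : 0 ≤ x := le_trans (Nat.cast_nonneg N) hx
  obtain ⟨m, h1, h2, h3⟩ := h (⌊x⌋₊ + 1) (le_trans (Nat.le_floor hx) (Nat.le_succ _))
  have h4 : x < m := by
    have h5 : x < (⌊x⌋₊ : ℝ) + 1 := Nat.lt_floor_add_one x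
    have h6 : ((⌊x⌋₊ + 1 : ℕ) : ℝ) ≤ m := by exact_mod_cast h1
    push_cast at h6
    linarith
  have h7 : (m : ℝ) ≤ (1 + 3 * δ) * x := by
    have h5 : (⌊x⌋₊ : ℝ) ≤ x := Nat.floor_le hx0
    push_cast at h2
    have h6 : (⌊x⌋₊ : ℝ) + 1 ≤ (1 + δ) * x := by linarith
    calc (m : ℝ) ≤ (1 + δ) * ((⌊x⌋₊ : ℝ) + 1) := h2
      _ ≤ (1 + δ) * ((1 + δ) * x) := mul_le_mul_of_nonneg_left h6 (by linarith)
      _ = (1 + 2 * δ + δ * δ) * x := by ring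
      _ ≤ (1 + 3 * δ) * x := by
          refine mul_le_mul_of_nonneg_right ?_ hx0
          have : δ * δ ≤ δ * 1 := mul_le_mul_of_nonneg_left hδ1 hδ.le
          linarith
  have h8 : m ∉ {m : ℕ | (m : ℝ) ≤ x ∧ P m} := fun h9 => absurd h9.1 (not_le.2 h4)
  have h9 : insert m {m : ℕ | (m : ℝ) ≤ x ∧ P m} ⊆
      {m : ℕ | (m : ℝ) ≤ (1 + 3 * δ) * x ∧ P m} := by
    intro k hk
    rcases Set.mem_insert_iff.1 hk with rfl | hk
    · exact ⟨h7, h3⟩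
    · refine ⟨le_trans hk.1 ?_, hk.2⟩
      have : 0 ≤ δ * x := mul_nonneg hδ.le hx0
      linarith
  rw [← Set.ncard_insert_of_notMem h8 (cnt_step_fin P x)]
  exact Set.ncard_le_ncard h9 (cnt_step_fin P _)
-- END cnt_step

-- BEGIN cnt_log
/-- counting: windows `[n, (1+δ) n]` for every `δ` give more than `C log M`. HINT: `cnt_step` with
`x = (1+3δ)^k N'`, `k = ⌊log (M/N') / log (1+3δ)⌋₊`, `log (1+3δ) ≤ 3δ`, `δ = 1/(6C+6)`. -/
theorem cnt_log (P : ℕ → Prop)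
    (h : ∀ δ : ℝ, 0 < δ → ∃ N : ℕ, ∀ n ≥ N, ∃ m : ℕ, n ≤ m ∧ (m : ℝ) ≤ (1 + δ) * n ∧ P m)
    (C : ℝ) (hC : 0 < C) :
    ∃ N : ℕ, ∀ M ≥ N, C * Real.log M ≤ {m : ℕ | m ≤ M ∧ P m}.ncard := by
  set δ : ℝ := 1 / (6 * C + 6) with hδdef
  have hδ : 0 < δ := by positivity
  have hδ1 : δ ≤ 1 := by
    rw [hδdef, div_le_one (by positivity)]
    linarith
  have h3δ : 3 * δ * (2 * C + 2) = 1 := by
    rw [hδdef]
    field_simp
    ring
  obtain ⟨N, hN⟩ := h δ hδ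
  obtain ⟨N', hN1, hN2⟩ : ∃ N' : ℕ, N ≤ N' ∧ 1 ≤ δ * (N' : ℝ) := by
    refine ⟨max N ⌈1 / δ⌉₊, le_max_left _ _, ?_⟩
    have h1 : 1 / δ ≤ ((max N ⌈1 / δ⌉₊ : ℕ) : ℝ) :=
      le_trans (Nat.le_ceil _) (by exact_mod_cast le_max_right _ _)
    rw [div_le_iff₀ hδ] at h1
    linarith
  have hN'pos : (0 : ℝ) < N' := by
    by_contra hcon
    have h1 : δ * (N' : ℝ) ≤ 0 := mul_nonpos_of_nonneg_of_nonpos hδ.le (not_lt.1 hcon)
    linarith
  have hN'1 : (1 : ℝ) ≤ N' := by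
    have : 0 < N' := by exact_mod_cast hN'pos
    exact_mod_cast this
  have hb1 : 1 < 1 + 3 * δ := by linarith
  have hlogpos : 0 < Real.log (1 + 3 * δ) := Real.log_pos hb1
  have hlogle : Real.log (1 + 3 * δ) ≤ 3 * δ := by
    have := Real.log_le_sub_one_of_pos (show (0 : ℝ) < 1 + 3 * δ by linarith)
    linarith
  have hstep : ∀ k : ℕ, k ≤ {m : ℕ | (m : ℝ) ≤ (1 + 3 * δ) ^ k * N' ∧ P m}.ncard := by
    intro k
    induction k with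
    | zero => exact Nat.zero_le _
    | succ k ih =>
      have h1 : (1 : ℝ) ≤ (1 + 3 * δ) ^ k := one_le_pow₀ hb1.le
      have h2 : (N' : ℝ) ≤ (1 + 3 * δ) ^ k * N' := le_mul_of_one_le_left hN'pos.le h1
      have h3 : (N : ℝ) ≤ N' := by exact_mod_cast hN1
      have h4 := cnt_step P δ hδ hδ1 N hN ((1 + 3 * δ) ^ k * N') (le_trans h3 h2)
        (le_trans hN2 (mul_le_mul_of_nonneg_left h2 hδ.le))
      have h5 : (1 + 3 * δ) * ((1 + 3 * δ) ^ k * N') = (1 + 3 * δ) ^ (k + 1) * N' := by ring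
      rw [h5] at h4
      omega
  set K : ℝ := (2 * C + 2) * Real.log N' + 1 with hK
  have hlogN : 0 ≤ Real.log N' := Real.log_nonneg hN'1
  refine ⟨max N' ⌈Real.exp K⌉₊, fun M hM => ?_⟩
  have hM1 : (N' : ℝ) ≤ M := by exact_mod_cast le_trans (le_max_left _ _) hM
  have hM2 : Real.exp K ≤ M :=
    le_trans (Nat.le_ceil _) (by exact_mod_cast le_trans (le_max_right _ _) hM)
  have hMpos : (0 : ℝ) < M := lt_of_lt_of_le hN'pos hM1
  have hlogM : K ≤ Real.log M := (Real.le_log_iff_exp_le hMpos).2 hM2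
  set y : ℝ := Real.log M - Real.log N' with hy
  have hy0 : 0 ≤ y := by
    have := Real.log_le_log hN'pos hM1
    linarith
  set k : ℕ := ⌊y / Real.log (1 + 3 * δ)⌋₊ with hk
  have hk1 : (k : ℝ) * Real.log (1 + 3 * δ) ≤ y := by
    have h1 : (k : ℝ) ≤ y / Real.log (1 + 3 * δ) := Nat.floor_le (div_nonneg hy0 hlogpos.le)
    exact (le_div_iff₀ hlogpos).1 h1
  have hk2 : (2 * C + 2) * y - 1 ≤ k := by
    have h1 : y / Real.log (1 + 3 * δ) < k + 1 := Nat.lt_floor_add_one _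
    have h2 : (2 * C + 2) * y ≤ y / Real.log (1 + 3 * δ) := by
      rw [le_div_iff₀ hlogpos]
      calc (2 * C + 2) * y * Real.log (1 + 3 * δ) ≤ (2 * C + 2) * y * (3 * δ) :=
            mul_le_mul_of_nonneg_left hlogle (by positivity)
        _ = 3 * δ * (2 * C + 2) * y := by ring
        _ = y := by rw [h3δ, one_mul]
    linarith
  have hxk : (1 + 3 * δ) ^ k * N' ≤ M := by
    have h1 : (1 + 3 * δ) ^ k = Real.exp (k * Real.log (1 + 3 * δ)) := by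
      rw [Real.exp_nat_mul, Real.exp_log (by linarith)]
    have h2 : Real.exp y = M / N' := by
      rw [hy, Real.exp_sub, Real.exp_log hMpos, Real.exp_log hN'pos]
    rw [h1]
    calc Real.exp (k * Real.log (1 + 3 * δ)) * N' ≤ Real.exp y * N' :=
          mul_le_mul_of_nonneg_right (Real.exp_le_exp.2 hk1) hN'pos.le
      _ = M := by
          rw [h2]
          field_simp
  have hsub : {m : ℕ | (m : ℝ) ≤ (1 + 3 * δ) ^ k * N' ∧ P m} ⊆ {m : ℕ | m ≤ M ∧ P m} := by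
    intro m hm
    refine ⟨?_, hm.2⟩
    have : (m : ℝ) ≤ M := le_trans hm.1 hxk
    exact_mod_cast this
  have hfin : {m : ℕ | m ≤ M ∧ P m}.Finite := (Set.finite_Iic M).subset fun _ hm => hm.1
  have hcard : k ≤ {m : ℕ | m ≤ M ∧ P m}.ncard :=
    le_trans (hstep k) (Set.ncard_le_ncard hsub hfin)
  have hcardR : (k : ℝ) ≤ ({m : ℕ | m ≤ M ∧ P m}.ncard : ℝ) := by exact_mod_cast hcard
  have hfinal : C * Real.log M ≤ (2 * C + 2) * y - 1 := by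
    have h1 : (2 * C + 2) * y = (2 * C + 2) * Real.log M - (2 * C + 2) * Real.log N' := by
      rw [hy]
      ring
    have h2 : (0 : ℝ) ≤ Real.log M := by
      have h3 : 0 ≤ K := by positivity
      linarith
    have h4 : 0 ≤ C * Real.log M := mul_nonneg hC.le h2
    rw [h1]
    linarith
  linarith
-- END cnt_log

-- BEGIN struct2
/-- structure of windows without primes `≤ 17`, every real `ξ`, `q = 2`. HINT: `win2`, `run_d`,
`run_f`. -/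
theorem struct2 (ξ : ℝ) (n L : ℕ) (hL : 80 ≤ L)
    (h : ∀ m, n ≤ m → m ≤ n + L → ∀ p : ℕ, p.Prime → p ≤ 17 → ¬ (p : ℤ) ∣ A ξ 2 m)
    (i : ℕ) (h1 : 10 ≤ i) (h2 : i + 10 ≤ L) :
    (2 : ℤ) ^ (L - 10 - i) ∣ A ξ 2 (n + i) + 1 ∧
      1 - F ξ 2 (n + i) ≤ ((2 : ℝ) / 3) ^ (L - 10 - i) := by
  have hw := win2 ξ n L hL h
  have hS : ∀ j < L - 10 - i, S ξ 2 (n + i + j) = 1 := by
    intro j hj
    rw [add_assoc]
    exact hw (i + j) (by omega) (by omega)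
  have hd := run_d ξ 2 (n + i) (L - 10 - i) (by norm_num) hS
  have hf := run_f ξ 2 (n + i) (L - 10 - i) (by norm_num) hS
  have e : ((2 : ℕ) : ℝ) / (((2 : ℕ) : ℝ) + 1) = (2 : ℝ) / 3 := by norm_num
  rw [e] at hf
  exact ⟨by exact_mod_cast hd, hf⟩
-- END struct2

-- BEGIN struct3
/-- the same for `q = 3`. HINT: `win3`, `run_d`, `run_f`. -/
theorem struct3 (ξ : ℝ) (n L : ℕ) (hL : 11 ≤ L)
    (h : ∀ m, n ≤ m → m ≤ n + L → ∀ p : ℕ, p.Prime → p ≤ 5 → ¬ (p : ℤ) ∣ A ξ 3 m)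
    (i : ℕ) (h1 : 7 ≤ i) (h2 : i ≤ L) :
    (3 : ℤ) ^ (L - i) ∣ A ξ 3 (n + i) + 1 ∧
      1 - F ξ 3 (n + i) ≤ ((3 : ℝ) / 4) ^ (L - i) := by
  have hw := win3 ξ n L hL h
  have hrun : ∀ k < L - i, S ξ 3 (n + i + k) = 1 := by
    intro k hk
    have h3 := hw (i + k) (by omega) (by omega)
    rwa [← Nat.add_assoc] at h3
  refine ⟨by exact_mod_cast run_d ξ 3 (n + i) (L - i) (by norm_num) hrun, ?_⟩
  have h4 := run_f ξ 3 (n + i) (L - i) (by norm_num) hrun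
  have h5 : ((3 : ℕ) : ℝ) / (((3 : ℕ) : ℝ) + 1) = 3 / 4 := by norm_num
  rwa [h5] at h4
-- END struct3

end Pool.Agent.T32
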