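import Pool.Agent.T32.Main

/-! Every real `ξ > 0`: windows `[n, 8n/5]` for `3/2` and `[n, 13n/10]` for `4/3` (only divisibility). -/

namespace Pool.Agent.T32

/-- comparison of two exponentials -/
theorem grow (α β D E : ℝ) (h1 : 1 < α) (h2 : α < β) (hD : 0 ≤ D) (hE : 0 < E) :
    ∃ N : ℕ, ∀ n ≥ N, D * α ^ n + 1 < E * β ^ n := by
  have h3 : 1 < β / α := by rw [one_lt_div (by linarith)]; exact h2
  have h4 := tendsto_pow_atTop_atTop_of_one_lt h3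
  obtain ⟨N, hN⟩ := Filter.eventually_atTop.1 (h4.eventually_gt_atTop ((D + 1) / E))
  refine ⟨N, fun n hn => ?_⟩
  have h5 := hN n hn
  rw [div_pow, div_lt_div_iff₀ hE (by positivity)] at h5
  have h6 : 1 ≤ α ^ n := one_le_pow₀ h1.le
  nlinarith

/-- a run of digits `1` is short, every real `ξ > 0` -/
theorem run_short (ξ : ℝ) (hξ : 0 < ξ) (q n L : ℕ) (hq : 0 < q)
    (h : ∀ i < L, S ξ q (n + i) = 1) :
    (q : ℝ) ^ L ≤ ξ * (((q : ℝ) + 1) / q) ^ n + 1 := by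
  have hq0 : (0 : ℝ) < q := by exact_mod_cast hq
  have hd := run_d ξ q n L hq h
  have hpos : 0 < A ξ q n + 1 := by
    have : 0 ≤ A ξ q n := Int.floor_nonneg.2 (by positivity)
    omega
  have h1 := Int.le_of_dvd hpos hd
  have h2 : ((q : ℝ)) ^ L ≤ (A ξ q n : ℝ) + 1 := by exact_mod_cast h1
  have h3 : (A ξ q n : ℝ) ≤ ξ * (((q : ℝ) + 1) / q) ^ n := Int.floor_le _
  linarith

/-- windows `[n, 8n/5]` for `3/2`, every real `ξ > 0` -/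
theorem real2 (ξ : ℝ) (hξ : 0 < ξ) :
    ∃ N : ℕ, ∀ n ≥ N, ∃ m : ℕ, n ≤ m ∧ 5 * m ≤ 8 * n ∧ 17 < A ξ 2 m ∧
      ∃ p : ℕ, p.Prime ∧ p ≤ 17 ∧ (p : ℤ) ∣ A ξ 2 m := by
  obtain ⟨N1, hN1⟩ := big_a ξ hξ 2 (by norm_num) 17
  obtain ⟨β, hβ0, hβ⟩ : ∃ β : ℝ, 0 < β ∧ β ^ 5 = 8 :=
    ⟨(8 : ℝ) ^ (1 / 5 : ℝ), by positivity, by
      rw [← Real.rpow_natCast, ← Real.rpow_mul (by norm_num)]; norm_num⟩
  have hβ1 : (3 / 2 : ℝ) < β := by
    by_contra hcon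
    push Not at hcon
    have h1 : β ^ 5 ≤ (3 / 2 : ℝ) ^ 5 := pow_le_pow_left₀ hβ0.le hcon 5
    rw [hβ] at h1
    norm_num at h1
  obtain ⟨N2, hN2⟩ := grow (3 / 2) β (ξ * (3 / 2) ^ 10) (1 / 2 ^ 21) (by norm_num) hβ1
    (by positivity) (by norm_num)
  refine ⟨max (max N1 N2) 200, fun n hn => ?_⟩
  have hn1 : N1 ≤ n := le_trans (le_trans (le_max_left _ _) (le_max_left _ _)) hn
  have hn2 : N2 ≤ n := le_trans (le_trans (le_max_right _ _) (le_max_left _ _)) hn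
  have hn3 : 200 ≤ n := le_trans (le_max_right _ _) hn
  set L : ℕ := 3 * n / 5 with hL
  have hL80 : 80 ≤ L := by omega
  by_contra hcon
  push Not at hcon
  have hw := win2 ξ n L hL80 (fun m hm1 hm2 p hp hp1 hdvd =>
    hcon m hm1 (by omega) (hN1 m (by omega)) p hp hp1 hdvd)
  have hrun : ∀ i < L - 20, S ξ 2 (n + 10 + i) = 1 := by
    intro i hi
    rw [add_assoc]
    exact hw (10 + i) (by omega) (by omega)
  have h1 := run_short ξ hξ 2 (n + 10) (L - 20) (by norm_num) hrun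
  have h2 := hN2 n hn2
  have h3 : (β ^ n / 2) ^ 5 ≤ ((2 : ℝ) ^ L) ^ 5 := by
    have e1 : (β ^ n / 2) ^ 5 = 2 ^ (3 * n) / 2 ^ 5 := by
      rw [div_pow, ← pow_mul, mul_comm n 5, pow_mul, hβ, pow_mul]
      norm_num
    rw [e1, ← pow_mul, div_le_iff₀ (by positivity), ← pow_add]
    exact pow_le_pow_right₀ (by norm_num) (by omega)
  have h4 : β ^ n / 2 ≤ (2 : ℝ) ^ L := le_of_pow_le_pow_left₀ (by norm_num) (by positivity) h3
  have h5 : (2 : ℝ) ^ L = 2 ^ (L - 20) * 2 ^ 20 := by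
    rw [← pow_add]
    congr 1
    omega
  have h6 : ((((2 : ℕ) : ℝ) + 1) / ((2 : ℕ) : ℝ)) ^ (n + 10) = (3 / 2 : ℝ) ^ 10 * (3 / 2) ^ n := by
    rw [pow_add]
    norm_num
    ring
  rw [h6] at h1
  push_cast at h1
  have h7 : β ^ n ≤ 2 ^ 21 * (2 : ℝ) ^ (L - 20) := by
    rw [h5] at h4
    linarith
  have h8 : (1 / 2 ^ 21 : ℝ) * β ^ n ≤ (2 : ℝ) ^ (L - 20) := by
    have h9 : (1 / 2 ^ 21 : ℝ) * β ^ n ≤ (1 / 2 ^ 21 : ℝ) * (2 ^ 21 * (2 : ℝ) ^ (L - 20)) := by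
      gcongr
    refine le_trans h9 (le_of_eq ?_)
    ring
  linarith

/-- windows `[n, 13n/10]` for `4/3`, every real `ξ > 0` -/
theorem real3 (ξ : ℝ) (hξ : 0 < ξ) :
    ∃ N : ℕ, ∀ n ≥ N, ∃ m : ℕ, n ≤ m ∧ 10 * m ≤ 13 * n ∧ 5 < A ξ 3 m ∧
      ∃ p : ℕ, p.Prime ∧ p ≤ 5 ∧ (p : ℤ) ∣ A ξ 3 m := by
  obtain ⟨N1, hN1⟩ := big_a ξ hξ 3 (by norm_num) 5
  obtain ⟨β, hβ0, hβ⟩ : ∃ β : ℝ, 0 < β ∧ β ^ 10 = 27 :=
    ⟨(27 : ℝ) ^ (1 / 10 : ℝ), by positivity, by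
      rw [← Real.rpow_natCast, ← Real.rpow_mul (by norm_num)]; norm_num⟩
  have hβ1 : (4 / 3 : ℝ) < β := by
    by_contra hcon
    push Not at hcon
    have h1 : β ^ 10 ≤ (4 / 3 : ℝ) ^ 10 := pow_le_pow_left₀ hβ0.le hcon 10
    rw [hβ] at h1
    norm_num at h1
  obtain ⟨N2, hN2⟩ := grow (4 / 3) β (ξ * (4 / 3) ^ 7) (1 / 3 ^ 8) (by norm_num) hβ1
    (by positivity) (by norm_num)
  refine ⟨max (max N1 N2) 200, fun n hn => ?_⟩
  have hn1 : N1 ≤ n := le_trans (le_trans (le_max_left _ _) (le_max_left _ _)) hn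
  have hn2 : N2 ≤ n := le_trans (le_trans (le_max_right _ _) (le_max_left _ _)) hn
  have hn3 : 200 ≤ n := le_trans (le_max_right _ _) hn
  set L : ℕ := 3 * n / 10 with hL
  have hL80 : 11 ≤ L := by omega
  by_contra hcon
  push Not at hcon
  have hw := win3 ξ n L hL80 (fun m hm1 hm2 p hp hp1 hdvd =>
    hcon m hm1 (by omega) (hN1 m (by omega)) p hp hp1 hdvd)
  have hrun : ∀ i < L - 7, S ξ 3 (n + 7 + i) = 1 := by
    intro i hi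
    rw [add_assoc]
    exact hw (7 + i) (by omega) (by omega)
  have h1 := run_short ξ hξ 3 (n + 7) (L - 7) (by norm_num) hrun
  have h2 := hN2 n hn2
  have h3 : (β ^ n / 3) ^ 10 ≤ ((3 : ℝ) ^ L) ^ 10 := by
    have e1 : (β ^ n / 3) ^ 10 = 3 ^ (3 * n) / 3 ^ 10 := by
      rw [div_pow, ← pow_mul, mul_comm n 10, pow_mul, hβ, pow_mul]
      norm_num
    rw [e1, ← pow_mul, div_le_iff₀ (by positivity), ← pow_add]
    exact pow_le_pow_right₀ (by norm_num) (by omega)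
  have h4 : β ^ n / 3 ≤ (3 : ℝ) ^ L := le_of_pow_le_pow_left₀ (by norm_num) (by positivity) h3
  have h5 : (3 : ℝ) ^ L = 3 ^ (L - 7) * 3 ^ 7 := by
    rw [← pow_add]
    congr 1
    omega
  have h6 : ((((3 : ℕ) : ℝ) + 1) / ((3 : ℕ) : ℝ)) ^ (n + 7) = (4 / 3 : ℝ) ^ 7 * (4 / 3) ^ n := by
    rw [pow_add]
    norm_num
    ring
  rw [h6] at h1
  push_cast at h1
  have h7 : β ^ n ≤ 3 ^ 8 * (3 : ℝ) ^ (L - 7) := by
    rw [h5] at h4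
    linarith
  have h8 : (1 / 3 ^ 8 : ℝ) * β ^ n ≤ (3 : ℝ) ^ (L - 7) := by
    have h9 : (1 / 3 ^ 8 : ℝ) * β ^ n ≤ (1 / 3 ^ 8 : ℝ) * (3 ^ 8 * (3 : ℝ) ^ (L - 7)) := by
      gcongr
    refine le_trans h9 (le_of_eq ?_)
    ring
  linarith

end Pool.Agent.T32
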