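import Pool.Agent.T32.Dig
import Pool.Agent.T32.Mach
import Pool.Agent.T32.Chk

/-! Windows without small primes. -/

namespace Pool.Agent.T32

-- BEGIN win2
/-- `q = 2`: a window of length `L ≥ 80` without primes `≤ 17`. HINT: `slide` with `lo = 10`,
`hi = 70`, `T = 80`; `dfs_sound` with `P = [5,7,11,13,17]`, `dfs2`, `good_init2`, `dig2`, `mm2`. -/
theorem win2 (ξ : ℝ) (n L : ℕ) (hL : 80 ≤ L)
    (h : ∀ m, n ≤ m → m ≤ n + L → ∀ p : ℕ, p.Prime → p ≤ 17 → ¬ (p : ℤ) ∣ A ξ 2 m) :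
    ∀ j, 10 ≤ j → j + 10 < L → S ξ 2 (n + j) = 1 := by
  intro j hj hjL
  refine slide (S ξ 2) 10 70 80 n L (by norm_num) (by norm_num) hL ?_ j hj (by omega)
  intro k hk j hj1 hj2
  have hdig : ∀ j < 80, S ξ 2 (n + k + j) = 1 ∨ S ξ 2 (n + k + j) = -1 := by
    intro j hj
    refine dig2 ξ (n + k + j) ?_
    exact_mod_cast h (n + k + j) (by omega) (by omega) 2 Nat.prime_two (by norm_num)
  have hP : ∀ j ≤ 80, ∀ p ∈ [5, 7, 11, 13, 17], ¬ ((p : ℕ) : ℤ) ∣ A ξ 2 (n + k + j) := by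
    intro j hj p hp
    simp only [List.mem_cons, List.not_mem_nil, or_false] at hp
    rcases hp with rfl | rfl | rfl | rfl | rfl <;>
      exact h (n + k + j) (by omega) (by omega) _ (by norm_num) (by norm_num)
  have key := dfs_sound 2 1 10 70 80 (fun j => A ξ 2 (n + k + j)) (fun j => S ξ 2 (n + k + j))
    [5, 7, 11, 13, 17] hdig ?_ ?_ hP 80 0 0 false init2 rfl le_rfl ?_ ?_ dfs2
  · exact key.2 j (Nat.zero_le _) (by omega) hj1 hj2
  · intro j _
    simp only [S]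
    have e1 : n + k + (j + 1) = n + k + j + 1 := rfl
    rw [e1]
    ring
  · intro j hj
    rcases hdig j (by omega) with h1 | h1
    · exact ⟨0, by norm_num, h1⟩
    · rcases hdig (j + 1) (by omega) with h2 | h2
      · exact ⟨1, le_rfl, h2⟩
      · exact (mm2 ξ (n + k + j) h1 h2).elim
  · intro j hj
    exact absurd hj (Nat.not_lt_zero _)
  · intro x hx
    have hP0 := hP 0 (by norm_num)
    refine ⟨?_, good_init2 _ (hP0 5 (by simp)) (hP0 7 (by simp)) (hP0 11 (by simp)) (hP0 13 (by simp))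
      (hP0 17 (by simp)) x hx⟩
    unfold init2 at hx
    simp only [List.mem_cons, List.not_mem_nil, or_false] at hx
    rcases hx with rfl | rfl | rfl | rfl | rfl <;> simp
-- END win2

-- BEGIN win3
private theorem win3_rec (ξ : ℝ) (n k : ℕ) :
    3 * A ξ 3 (n + (k + 1)) = 4 * A ξ 3 (n + k) + S ξ 3 (n + k) := by
  have h : S ξ 3 (n + k) = ((3 : ℕ) : ℤ) * A ξ 3 (n + k + 1) - (((3 : ℕ) : ℤ) + 1) * A ξ 3 (n + k) :=
    rfl
  rw [← Nat.add_assoc, h]
  push_cast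
  ring

private theorem win3_f (ξ : ℝ) (n k : ℕ) :
    ((S ξ 3 (n + k) : ℤ) : ℝ) = 4 * F ξ 3 (n + k) - 3 * F ξ 3 (n + (k + 1)) := by
  have h := S_id ξ 3 (n + k) (by norm_num)
  rw [h, ← Nat.add_assoc]
  push_cast
  ring

/-- the alternating digits `-1,1,-1,1,-1,1,-1` are impossible -/
private theorem win3_alt (ξ : ℝ) (n k : ℕ) (h0 : S ξ 3 (n + k) = -1) (h1 : S ξ 3 (n + (k + 1)) = 1)
    (h2 : S ξ 3 (n + (k + 2)) = -1) (h3 : S ξ 3 (n + (k + 3)) = 1)
    (h4 : S ξ 3 (n + (k + 4)) = -1) (h5 : S ξ 3 (n + (k + 5)) = 1)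
    (h6 : S ξ 3 (n + (k + 6)) = -1) : False := by
  have e0 := win3_f ξ n k
  have e1 := win3_f ξ n (k + 1)
  have e2 := win3_f ξ n (k + 2)
  have e3 := win3_f ξ n (k + 3)
  have e4 := win3_f ξ n (k + 4)
  have e5 := win3_f ξ n (k + 5)
  have e6 := win3_f ξ n (k + 6)
  rw [h0] at e0
  rw [h1] at e1
  rw [h2] at e2
  rw [h3] at e3
  rw [h4] at e4
  rw [h5] at e5
  rw [h6] at e6
  have f0 := F_nonneg ξ 3 (n + k)
  have f7 := F_lt_one ξ 3 (n + (k + 6 + 1))
  push_cast at e0 e1 e2 e3 e4 e5 e6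
  simp only [Nat.add_assoc, Nat.reduceAdd] at e0 e1 e2 e3 e4 e5 e6 f7
  linarith

/-- `q = 3`: a window of length `L ≥ 11` without primes `≤ 5`. Modulo 5 a term `4` forces the digit `1`
and is followed by `4`; `1` forces `-1` and is followed by `1`, which `mm3` forbids; `3` is followed by
`2`, and the alternation `3, 2, 3, 2, 3, 2, 3` is impossible because of the fractional parts. -/
theorem win3 (ξ : ℝ) (n L : ℕ) (hL : 11 ≤ L)
    (h : ∀ m, n ≤ m → m ≤ n + L → ∀ p : ℕ, p.Prime → p ≤ 5 → ¬ (p : ℤ) ∣ A ξ 3 m) :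
    ∀ j, 7 ≤ j → j < L → S ξ 3 (n + j) = 1 := by
  have hS : ∀ k, k < L → S ξ 3 (n + k) = 1 ∨ S ξ 3 (n + k) = -1 := by
    intro k hk
    apply dig3
    · exact h (n + k + 1) (by omega) (by omega) 2 Nat.prime_two (by norm_num)
    · exact h (n + k) (by omega) (by omega) 3 Nat.prime_three (by norm_num)
  have h5 : ∀ k, k ≤ L → ¬ (5 : ℤ) ∣ A ξ 3 (n + k) := fun k hk =>
    h (n + k) (by omega) (by omega) 5 Nat.prime_five le_rfl
  have hrec := win3_rec ξ n
  -- the residue 4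
  have c4 : ∀ k, k < L → A ξ 3 (n + k) % 5 = 4 →
      S ξ 3 (n + k) = 1 ∧ A ξ 3 (n + (k + 1)) % 5 = 4 := by
    intro k hk h4
    have e := hrec k
    have e5 := h5 (k + 1) (by omega)
    rcases hS k hk with hs | hs <;> rw [hs] at e
    · exact ⟨hs, by omega⟩
    · exfalso; omega
  -- the residue 1
  have c1' : ∀ k, k < L → A ξ 3 (n + k) % 5 = 1 →
      S ξ 3 (n + k) = -1 ∧ A ξ 3 (n + (k + 1)) % 5 = 1 := by
    intro k hk h1
    have e := hrec k
    have e5 := h5 (k + 1) (by omega)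
    rcases hS k hk with hs | hs <;> rw [hs] at e
    · exfalso; omega
    · exact ⟨hs, by omega⟩
  have c1 : ∀ k, k + 3 ≤ L → A ξ 3 (n + k) % 5 ≠ 1 := by
    intro k hk h1
    obtain ⟨a0, b0⟩ := c1' k (by omega) h1
    obtain ⟨a1, b1⟩ := c1' (k + 1) (by omega) b0
    obtain ⟨a2, -⟩ := c1' (k + 1 + 1) (by omega) b1
    exact mm3 ξ (n + k) a0 a1 a2
  -- the residue 3
  have c3 : ∀ k, k + 4 ≤ L → A ξ 3 (n + k) % 5 = 3 →
      S ξ 3 (n + k) = -1 ∧ A ξ 3 (n + (k + 1)) % 5 = 2 := by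
    intro k hk h3
    have e := hrec k
    have e1 := c1 (k + 1) (by omega)
    rcases hS k (by omega) with hs | hs <;> rw [hs] at e
    · exfalso; omega
    · exact ⟨hs, by omega⟩
  -- the residue 2
  have c2 : ∀ k, k < L → A ξ 3 (n + k) % 5 = 2 → A ξ 3 (n + (k + 1)) % 5 ≠ 4 →
      S ξ 3 (n + k) = 1 ∧ A ξ 3 (n + (k + 1)) % 5 = 3 := by
    intro k hk h2 h4
    have e := hrec k
    rcases hS k hk with hs | hs <;> rw [hs] at e
    · exact ⟨hs, by omega⟩
    · exfalso; omega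
  -- the residue 4 is reached
  have hex : ∃ k, k ≤ 7 ∧ A ξ 3 (n + k) % 5 = 4 := by
    by_contra hcon
    push Not at hcon
    have key : ∀ k, k ≤ 1 → A ξ 3 (n + k) % 5 = 3 → False := by
      intro k hk h3
      obtain ⟨a0, b0⟩ := c3 k (by omega) h3
      obtain ⟨a1, b1⟩ := c2 (k + 1) (by omega) b0 (hcon _ (by omega))
      obtain ⟨a2, b2⟩ := c3 (k + 1 + 1) (by omega) b1
      obtain ⟨a3, b3⟩ := c2 (k + 1 + 1 + 1) (by omega) b2 (hcon _ (by omega))
      obtain ⟨a4, b4⟩ := c3 (k + 1 + 1 + 1 + 1) (by omega) b3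
      obtain ⟨a5, b5⟩ := c2 (k + 1 + 1 + 1 + 1 + 1) (by omega) b4 (hcon _ (by omega))
      obtain ⟨a6, -⟩ := c3 (k + 1 + 1 + 1 + 1 + 1 + 1) (by omega) b5
      exact win3_alt ξ n k a0 a1 a2 a3 a4 a5 a6
    have d0 := h5 0 (by omega)
    have d1 := c1 0 (by omega)
    have d4 := hcon 0 (by omega)
    have d3 : A ξ 3 (n + 0) % 5 ≠ 3 := fun h3 => key 0 (by omega) h3
    have d2 : A ξ 3 (n + 0) % 5 = 2 := by omega
    exact key 1 le_rfl (c2 0 (by omega) d2 (hcon _ (by omega))).2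
  obtain ⟨k, hk, hk4⟩ := hex
  have hall : ∀ d, k + d ≤ L → A ξ 3 (n + (k + d)) % 5 = 4 := by
    intro d
    induction d with
    | zero => intro _; exact hk4
    | succ d ih => intro hd; exact (c4 (k + d) (by omega) (ih (by omega))).2
  intro j hj1 hj2
  have h4 := hall (j - k) (by omega)
  rw [Nat.add_sub_cancel' (by omega)] at h4
  exact (c4 j hj2 h4).1
-- END win3

end Pool.Agent.T32
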